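import Mathlib

/-!
# The Gassner representation: definitions

The braid group, Artin's action on the free group, the Fox derivatives, the Gassner matrix, the
generators `A_{ic}` of the pure braid group, combed braids and patterns in words.
-/

set_option autoImplicit false

open FreeGroup (of lift_apply_of)

namespace MP5b6326

/-! ## Braid groups and Artin's action -/

/-- The relations of the braid group on `m + 1` strands (generators `σ_0, …, σ_{m-1}`). -/
def braidRels (m : ℕ) : Set (FreeGroup (Fin m)) :=
  {r | ∃ i j : Fin m, (i : ℕ) + 1 < j ∧ r = of i * of j * (of i)⁻¹ * (of j)⁻¹} ∪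
  {r | ∃ i j : Fin m, (i : ℕ) + 1 = j ∧
    r = of i * of j * of i * (of j)⁻¹ * (of i)⁻¹ * (of j)⁻¹}

/-- The braid group on `m + 1` strands. -/
abbrev Braid (m : ℕ) : Type := PresentedGroup (braidRels m)

/-- The free group `F_{m+1}` with generators `x_0, …, x_m`. -/
abbrev F (m : ℕ) : Type := FreeGroup (Fin (m + 1))

/-- The endomorphism `x_i ↦ x_i x_{i+1} x_i⁻¹`, `x_{i+1} ↦ x_i`, `x_j ↦ x_j` for the other `j`. -/
def sigmaHom (m : ℕ) (i : Fin m) : F m →* F m :=
  FreeGroup.lift fun j => if j = i.castSucc then of i.castSucc * of i.succ * (of i.castSucc)⁻¹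
    else if j = i.succ then of i.castSucc else of j

/-- The inverse of `sigmaHom`. -/
def sigmaInv (m : ℕ) (i : Fin m) : F m →* F m :=
  FreeGroup.lift fun j => if j = i.castSucc then of i.succ
    else if j = i.succ then (of i.succ)⁻¹ * of i.castSucc * of i.succ else of j

lemma castSucc_ne_succ {m : ℕ} (i : Fin m) : i.castSucc ≠ i.succ := by
  intro h
  have := congrArg Fin.val h
  simp at this

/-- Artin's automorphism `σ_i` of the free group. -/
def sigmaAut (m : ℕ) (i : Fin m) : MulAut (F m) :=
  MonoidHom.toMulEquiv (sigmaHom m i) (sigmaInv m i)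
    (by
      ext j
      have h := castSucc_ne_succ i
      simp only [MonoidHom.comp_apply, sigmaHom, sigmaInv, lift_apply_of, MonoidHom.id_apply]
      by_cases h1 : j = i.castSucc
      · subst h1
        simp [h.symm, mul_assoc]
      · by_cases h2 : j = i.succ
        · subst h2
          simp [h.symm]
        · simp [h1, h2])
    (by
      ext j
      have h := castSucc_ne_succ i
      simp only [MonoidHom.comp_apply, sigmaHom, sigmaInv, lift_apply_of, MonoidHom.id_apply]
      by_cases h1 : j = i.castSucc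
      · subst h1
        simp [h.symm]
      · by_cases h2 : j = i.succ
        · subst h2
          simp [h.symm, mul_assoc]
        · simp [h1, h2])

/-- The generator `x_k` of the free group, `k ≤ m` (and `1` for `k > m`). -/
def X (m k : ℕ) : F m := if h : k < m + 1 then of ⟨k, h⟩ else 1

lemma X_val {m : ℕ} (j : Fin (m + 1)) : X m j = of j := dif_pos j.2

lemma aut_ext {m : ℕ} {f g : MulAut (F m)} (h : ∀ k, k ≤ m → f (X m k) = g (X m k)) : f = g := by
  have : (f : F m →* F m) = (g : F m →* F m) := by
    ext j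
    have := h j (Nat.lt_succ_iff.mp j.2)
    rw [X_val] at this
    exact this
  ext x
  exact DFunLike.congr_fun this x

lemma sigmaAut_X {m : ℕ} (i : Fin m) (k : ℕ) : sigmaAut m i (X m k) =
    if k = i then X m i * X m (i + 1) * (X m i)⁻¹ else if k = i + 1 then X m i else X m k := by
  have hi : (i : ℕ) < m := i.2
  have e1 : X m i = of i.castSucc := by
    rw [← X_val]; rfl
  have e2 : X m (i + 1) = of i.succ := by
    rw [← X_val]; rfl
  have hs : ∀ x, sigmaAut m i x = sigmaHom m i x := fun _ => rfl
  by_cases hk : k < m + 1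
  · have e3 : X m k = of ⟨k, hk⟩ := by simp [X, hk]
    rw [hs, e1, e2, e3, sigmaHom, lift_apply_of]
    by_cases h1 : k = i
    · subst h1
      simp [Fin.ext_iff]
    · by_cases h2 : k = i + 1
      · subst h2
        simp [Fin.ext_iff]
      · simp [Fin.ext_iff, h1, h2]
  · have e3 : X m k = 1 := by simp [X, hk]
    have h1 : ¬ k = i := by omega
    have h2 : ¬ k = i + 1 := by omega
    rw [e3]
    simp [h1, h2]

lemma sigmaAut_comm {m : ℕ} (i j : Fin m) (h : (i : ℕ) + 1 < j) :
    sigmaAut m i * sigmaAut m j = sigmaAut m j * sigmaAut m i := by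
  apply aut_ext
  intro k _
  simp only [MulAut.mul_apply, sigmaAut_X]
  by_cases h1 : k = i
  · subst h1
    have a1 : ¬ (i : ℕ) = j := by omega
    have a2 : ¬ (i : ℕ) = j + 1 := by omega
    have a3 : ¬ (i : ℕ) + 1 = j := by omega
    simp [a1, a2, sigmaAut_X, a3]
  · by_cases h2 : k = i + 1
    · subst h2
      have a1 : ¬ (i : ℕ) + 1 = j := by omega
      have a2 : ¬ (i : ℕ) = j := by omega
      have a3 : ¬ (i : ℕ) = j + 1 := by omega
      simp [a1, a2, sigmaAut_X, a3]
    · by_cases h3 : k = j
      · subst h3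
        have a1 : ¬ (j : ℕ) = i := by omega
        have a2 : ¬ (j : ℕ) = i + 1 := by omega
        have a3 : ¬ (j : ℕ) + 1 = i := by omega
        simp [a1, a2, sigmaAut_X, a3]
      · by_cases h4 : k = j + 1
        · subst h4
          have a1 : ¬ (j : ℕ) + 1 = i := by omega
          have a2 : ¬ (j : ℕ) = i := by omega
          have a3 : ¬ (j : ℕ) = i + 1 := by omega
          simp [a1, a2, sigmaAut_X, a3]
        · simp [h1, h2, h3, h4, sigmaAut_X]

lemma sigmaAut_braid {m : ℕ} (i j : Fin m) (h : (i : ℕ) + 1 = j) :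
    sigmaAut m i * sigmaAut m j * sigmaAut m i = sigmaAut m j * sigmaAut m i * sigmaAut m j := by
  apply aut_ext
  intro k _
  have hj : (j : ℕ) = i + 1 := h.symm
  have a1 : ¬ (i : ℕ) = i + 1 + 1 := by omega
  have a2 : ¬ (i : ℕ) + 1 + 1 = i := by omega
  by_cases h1 : k = i
  · subst h1
    simp [MulAut.mul_apply, sigmaAut_X, hj, mul_assoc, a1, a2]
  · by_cases h2 : k = i + 1
    · subst h2
      simp [MulAut.mul_apply, sigmaAut_X, hj, mul_assoc, a1, a2]
    · by_cases h3 : k = i + 1 + 1
      · subst h3
        simp [MulAut.mul_apply, sigmaAut_X, hj, a1, a2]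
      · simp [MulAut.mul_apply, sigmaAut_X, hj, h1, h2, h3]

/-- Artin's action of the braid group on the free group. -/
def artin (m : ℕ) : Braid m →* MulAut (F m) :=
  PresentedGroup.toGroup (f := sigmaAut m) (by
    rintro r (⟨i, j, h, rfl⟩ | ⟨i, j, h, rfl⟩)
    · simp only [map_mul, map_inv, lift_apply_of]
      rw [sigmaAut_comm i j h]
      group
    · simp only [map_mul, map_inv, lift_apply_of]
      rw [sigmaAut_braid i j h]
      group)

/-! ## Fox calculus and the Gassner matrix -/

section fox

variable {α : Type*} [DecidableEq α]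

/-- The Fox derivative `∂/∂x_j` of a word: the sum over the letters `x_j^{±1}` of the word of
`+ (prefix before x_j)` and `- (prefix ending with x_j⁻¹)`. -/
noncomputable def foxList (j : α) : List (α × Bool) → MonoidAlgebra ℤ (FreeGroup α)
  | [] => 0
  | (i, true) :: L => (if i = j then 1 else 0) + MonoidAlgebra.of ℤ _ (of i) * foxList j L
  | (i, false) :: L =>
      MonoidAlgebra.of ℤ _ (of i)⁻¹ * (foxList j L - if i = j then 1 else 0)

/-- The Fox derivative `∂/∂x_j : F → ℤ[F]`. -/
noncomputable def fox (j : α) : FreeGroup α → MonoidAlgebra ℤ (FreeGroup α) :=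
  Quot.lift (foxList j) (by
    intro a b h
    cases h with
    | @not L1 L2 i b =>
      induction L1 with
      | nil =>
        cases b
        · simp only [List.nil_append, Bool.not_false, foxList]
          rw [add_sub_cancel_left, ← mul_assoc, ← map_mul, inv_mul_cancel, map_one, one_mul]
        · simp only [List.nil_append, Bool.not_true, foxList]
          rw [← mul_assoc, ← map_mul, mul_inv_cancel, map_one, one_mul]
          abel
      | cons x L1 ih =>
        obtain ⟨i', b'⟩ := x
        cases b'
        · simp only [List.cons_append, foxList]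
          rw [ih]
        · simp only [List.cons_append, foxList]
          rw [ih])

lemma fox_mk (j : α) (L : List (α × Bool)) : fox j (FreeGroup.mk L) = foxList j L := rfl

/-- The product rule. -/
lemma fox_mul (j : α) (u v : FreeGroup α) :
    fox j (u * v) = fox j u + MonoidAlgebra.of ℤ _ u * fox j v := by
  induction u using Quot.inductionOn with
  | h L =>
    induction v using Quot.inductionOn with
    | h L' =>
      change fox j (FreeGroup.mk L * FreeGroup.mk L') = fox j (FreeGroup.mk L) +
        MonoidAlgebra.of ℤ _ (FreeGroup.mk L) * fox j (FreeGroup.mk L')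
      rw [FreeGroup.mul_mk, fox_mk, fox_mk, fox_mk]
      induction L with
      | nil =>
        have : (FreeGroup.mk [] : FreeGroup α) = 1 := rfl
        rw [this, map_one]
        simp [foxList]
      | cons x L ih =>
        obtain ⟨i, b⟩ := x
        cases b
        · have h1 : (FreeGroup.mk ((i, false) :: L) : FreeGroup α) = (of i)⁻¹ * FreeGroup.mk L := by
            rw [of, FreeGroup.inv_mk, FreeGroup.mul_mk]
            rfl
          rw [List.cons_append, foxList, foxList, ih, h1, map_mul]
          noncomm_ring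
        · have h1 : (FreeGroup.mk ((i, true) :: L) : FreeGroup α) = of i * FreeGroup.mk L := by
            rw [of, FreeGroup.mul_mk]
            rfl
          rw [List.cons_append, foxList, foxList, ih, h1, map_mul]
          noncomm_ring

lemma fox_of (j i : α) : fox j (of i) = if i = j then 1 else 0 := by
  have : fox j (of i) = foxList j [(i, true)] := rfl
  rw [this, foxList, foxList]
  simp

end fox

/-- The ring `ℤ[t_0^{±1}, …, t_m^{±1}]` of Laurent polynomials. -/
abbrev Lam (m : ℕ) : Type := AddMonoidAlgebra ℤ (Fin (m + 1) → ℤ)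

/-- The homomorphism `x_i ↦ t_i` from the free group to the group of monomials. -/
def ab (m : ℕ) : F m →* Multiplicative (Fin (m + 1) → ℤ) :=
  FreeGroup.lift fun i => Multiplicative.ofAdd (Pi.single i 1)

/-- The ring homomorphism `φ : ℤ[F_{m+1}] → ℤ[t_0^{±1}, …, t_m^{±1}]` with `φ (x_i) = t_i`. -/
noncomputable def phi (m : ℕ) : MonoidAlgebra ℤ (F m) →+* Lam m :=
  (MonoidAlgebra.lift ℤ (Lam m) (F m) ((AddMonoidAlgebra.of ℤ _).comp (ab m))).toRingHom

/-- The Gassner matrix of a braid: the entry `(i, j)` is `φ (∂ β(x_i) / ∂ x_j)`. -/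
noncomputable def gassner {m : ℕ} (β : Braid m) :
    Matrix (Fin (m + 1)) (Fin (m + 1)) (Lam m) :=
  Matrix.of fun i j => phi m (fox j (artin m β (of i)))

/-! ## The generators of the pure braid group -/

/-- The generator `σ_k` of the braid group, `k < m` (and `1` for `k ≥ m`). -/
def gen (m k : ℕ) : Braid m := if h : k < m then PresentedGroup.of ⟨k, h⟩ else 1

/-- The generator `A_{ic} = σ_{c-1} ⋯ σ_{i+1} σ_i² σ_{i+1}⁻¹ ⋯ σ_{c-1}⁻¹` (`i < c ≤ m`) of the pure
braid group: the strand `c` goes once around the strand `i`. -/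
def A (m i : ℕ) : ℕ → Braid m
  | 0 => 1
  | c + 1 => if i = c then gen m i ^ 2 else gen m c * A m i c * (gen m c)⁻¹

/-- The braid `A_{i_1 c}^{e_1} A_{i_2 c}^{e_2} ⋯` of the word `(i_1, e_1), (i_2, e_2), …`. -/
def word (m c : ℕ) (w : List (ℕ × ℤ)) : Braid m := (w.map fun s => A m s.1 c ^ s.2).prod

/-- The combed braid `β_c β_{c-1} ⋯ β_1`, where `β_b` is the braid of the word `w b` in the generators
`A_{0b}, …, A_{b-1,b}`. -/
def comb (m : ℕ) (w : ℕ → List (ℕ × ℤ)) : ℕ → Braid m
  | 0 => 1
  | c + 1 => word m (c + 1) (w (c + 1)) * comb m w c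

/-- Reduced words in the generators `A_{0c}, …, A_{c-1,c}`: nonzero exponents, and consecutive
letters are different. -/
def Reduced (c : ℕ) (w : List (ℕ × ℤ)) : Prop :=
  (∀ s ∈ w, s.1 < c ∧ s.2 ≠ 0) ∧ w.IsChain fun s s' => s.1 ≠ s'.1

/-- The numbers `a, b, c` are different and in this cyclic order. -/
def Cyc (a b c : ℕ) : Prop := (a < b ∧ b < c) ∨ (b < c ∧ c < a) ∨ (c < a ∧ a < b)

/-- The word contains consecutive syllables `A_j^e A_i^{-1} A_k^f` such that `i, j, k` are
different and in this cyclic order. -/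
def MinusPattern (w : List (ℕ × ℤ)) : Prop :=
  ∃ (u v : List (ℕ × ℤ)) (i j k : ℕ) (e f : ℤ),
    w = u ++ (j, e) :: (i, -1) :: (k, f) :: v ∧ Cyc i j k

/-- The word contains consecutive syllables `A_j^e A_i^{+1} A_k^f` such that `i, k, j` are
different and in this cyclic order. -/
def PlusPattern (w : List (ℕ × ℤ)) : Prop :=
  ∃ (u v : List (ℕ × ℤ)) (i j k : ℕ) (e f : ℤ),
    w = u ++ (j, e) :: (i, 1) :: (k, f) :: v ∧ Cyc i k j

/-- `w` is a combed form of the braid `β`: the words `w 1, …, w m` are reduced and
`β = β_m β_{m-1} ⋯ β_1`, where `β_c` is the braid of the word `w c` in `A_{0c}, …, A_{c-1,c}`. -/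
def IsCombed (m : ℕ) (β : Braid m) (w : ℕ → List (ℕ × ℤ)) : Prop :=
  (∀ c ≤ m, Reduced c (w c)) ∧ comb m w m = β

lemma swap_val {m : ℕ} (a b x : Fin (m + 1)) : ((Equiv.swap a b x : Fin (m + 1)) : ℕ) =
    if (x : ℕ) = a then (b : ℕ) else if (x : ℕ) = b then (a : ℕ) else (x : ℕ) := by
  rw [Equiv.swap_apply_def]
  simp only [Fin.ext_iff]
  split_ifs <;> rfl

/-- The permutation of a braid (`σ_i` goes to the transposition `(i, i+1)`). -/
def perm (m : ℕ) : Braid m →* Equiv.Perm (Fin (m + 1)) :=
  PresentedGroup.toGroup (f := fun i : Fin m => Equiv.swap i.castSucc i.succ) (by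
    intro r hr
    rcases hr with ⟨i, j, h, rfl⟩ | ⟨i, j, h, rfl⟩
    · simp only [map_mul, map_inv, lift_apply_of]
      rw [mul_inv_eq_one, mul_inv_eq_iff_eq_mul]
      refine Equiv.ext fun x => Fin.ext ?_
      simp only [Equiv.Perm.mul_apply, swap_val, Fin.val_castSucc, Fin.val_succ]
      split_ifs <;> omega
    · simp only [map_mul, map_inv, lift_apply_of]
      rw [mul_inv_eq_one, mul_inv_eq_iff_eq_mul, mul_inv_eq_iff_eq_mul]
      refine Equiv.ext fun x => Fin.ext ?_
      simp only [Equiv.Perm.mul_apply, swap_val, Fin.val_castSucc, Fin.val_succ]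
      split_ifs <;> omega)

end MP5b6326
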