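import Pool.Agent.Lib.MP_5b6326_al.GassnerDefs

/-!
# Patterns in the kernel of the Gassner representation: the proof
-/

set_option autoImplicit false

open FreeGroup (of lift_apply_of)

namespace MP5b6326

lemma artin_gen_X {m k : ℕ} (hk : k < m) (j : ℕ) : artin m (gen m k) (X m j) =
    if j = k then X m k * X m (k + 1) * (X m k)⁻¹ else if j = k + 1 then X m k else X m j := by
  have h1 : artin m (gen m k) = sigmaAut m ⟨k, hk⟩ := by
    rw [gen, dif_pos hk]
    exact PresentedGroup.toGroup.of (rels := braidRels m) (f := sigmaAut m) _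
  rw [h1, sigmaAut_X]

lemma artin_gen_inv_X {m k : ℕ} (hk : k < m) (j : ℕ) : (artin m (gen m k))⁻¹ (X m j) =
    if j = k then X m (k + 1) else if j = k + 1 then (X m (k + 1))⁻¹ * X m k * X m (k + 1)
      else X m j := by
  have h : ∀ y, artin m (gen m k) y = X m j → (artin m (gen m k))⁻¹ (X m j) = y := by
    intro y hy
    rw [← hy]
    exact (artin m (gen m k)).symm_apply_apply y
  apply h
  have a1 : ¬ k + 1 = k := by omega
  by_cases h1 : j = k
  · subst h1
    simp [artin_gen_X hk]
  · by_cases h2 : j = k + 1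
    · subst h2
      simp only [h1, if_false, if_true, map_mul, map_inv, artin_gen_X hk]
      group
    · simp [h1, h2, artin_gen_X hk]

/-- The word `x_{i+1} ⋯ x_{c-1}`. -/
def U (m i : ℕ) : ℕ → F m
  | 0 => 1
  | c + 1 => if i < c then U m i c * X m c else 1

lemma U_succ {m i c : ℕ} (h : i < c) : U m i (c + 1) = U m i c * X m c := by
  rw [U, if_pos h]

lemma U_base {m i : ℕ} : U m i (i + 1) = 1 := by
  rw [U, if_neg (lt_irrefl i)]

lemma artin_gen_U {m i c : ℕ} (hc : c < m) : ∀ c' ≤ c, artin m (gen m c) (U m i c') = U m i c' := by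
  intro c'
  induction c' with
  | zero => intro _; simp [U]
  | succ c' ih =>
    intro h
    rw [U]
    split_ifs with h1
    · have a1 : ¬ c' = c := by omega
      have a2 : ¬ c' = c + 1 := by omega
      rw [map_mul, ih (by omega), artin_gen_X hc, if_neg a1, if_neg a2]
    · simp

/-- The action of `A_{ic}` on the generators of the free group. -/
lemma artin_A_X {m i : ℕ} : ∀ c, i < c → c ≤ m → ∀ k, artin m (A m i c) (X m k) =
    if k = i then (X m i * (U m i c * X m c * (U m i c)⁻¹)) * X m i *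
        (X m i * (U m i c * X m c * (U m i c)⁻¹))⁻¹
      else if k = c then ((U m i c)⁻¹ * X m i * U m i c) * X m c *
        ((U m i c)⁻¹ * X m i * U m i c)⁻¹
      else X m k := by
  intro c
  induction c with
  | zero => intro h; omega
  | succ c ih =>
    intro hi hm k
    by_cases hic : i = c
    · subst hic
      have hk : i < m := hm
      have e1 : A m i (i + 1) = gen m i * gen m i := by rw [A, if_pos rfl, pow_two]
      have a1 : ¬ i + 1 = i := by omega
      rw [e1, map_mul, MulAut.mul_apply, U_base]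
      by_cases h1 : k = i
      · subst h1
        simp only [artin_gen_X hk, if_true, a1, if_false, map_mul, map_inv]
        group
      · by_cases h2 : k = i + 1
        · subst h2
          simp only [artin_gen_X hk, if_true, a1, if_false]
          group
        · simp only [artin_gen_X hk, h1, h2, if_false]
    · have hic' : i < c := by omega
      have hc : c < m := hm
      have e1 : A m i (c + 1) = gen m c * A m i c * (gen m c)⁻¹ := by rw [A, if_neg hic]
      have hA := ih hic' (by omega)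
      rw [e1, map_mul, map_mul, map_inv, MulAut.mul_apply, MulAut.mul_apply, U_succ hic']
      have hU : artin m (gen m c) (U m i c) = U m i c := artin_gen_U hc c le_rfl
      have a1 : ¬ i = c + 1 := by omega
      have a2 : ¬ c = i := by omega
      have a3 : ¬ c + 1 = i := by omega
      have a4 : ¬ c + 1 = c := by omega
      by_cases h1 : k = i
      · subst h1
        simp only [artin_gen_inv_X hc, hic, a1, if_false, hA, if_true, map_mul, map_inv,
          artin_gen_X hc, hU]
        group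
      · by_cases h2 : k = c + 1
        · subst h2
          simp only [artin_gen_inv_X hc, a4, if_true, if_false, map_mul, map_inv, hA, a3, a2,
            artin_gen_X hc, hU, hic, a1]
          group
        · by_cases h3 : k = c
          · subst h3
            simp only [artin_gen_inv_X hc, if_true, hA, a3, a4, if_false, artin_gen_X hc, h1, h2]
          · simp only [artin_gen_inv_X hc, h1, h2, h3, if_false, hA, artin_gen_X hc]

/-! ## Derivations -/

section der

variable {G : Type*} [Group G] {R : Type*} [CommRing R]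

/-- Derivations (crossed homomorphisms) for the character `χ`. -/
def IsDer (χ : G →* R) (D : G → R) : Prop := ∀ u v, D (u * v) = D u + χ u * D v

lemma IsDer.one {χ : G →* R} {D : G → R} (h : IsDer χ D) : D 1 = 0 := by
  have := h 1 1
  rw [mul_one, map_one, one_mul] at this
  exact left_eq_add.mp this

lemma chi_inv_mul {χ : G →* R} (u : G) : χ u⁻¹ * χ u = 1 := by
  rw [← map_mul, inv_mul_cancel, map_one]

lemma IsDer.inv {χ : G →* R} {D : G → R} (h : IsDer χ D) (u : G) : D u⁻¹ = -(χ u⁻¹ * D u) := by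
  have := h u⁻¹ u
  rw [inv_mul_cancel, h.one] at this
  linear_combination -this

lemma IsDer.conj {χ : G →* R} {D : G → R} (h : IsDer χ D) (g x : G) :
    D (g * x * g⁻¹) = (1 - χ x) * D g + χ g * D x := by
  have h1 : χ g * χ g⁻¹ = 1 := by rw [mul_comm, chi_inv_mul]
  rw [h, h, h.inv, map_mul]
  linear_combination (-χ x * D g) * h1

lemma IsDer.comp {χ : G →* R} {D : G → R} (h : IsDer χ D) {f : G →* G}
    (hf : ∀ u, χ (f u) = χ u) : IsDer χ fun u => D (f u) := by
  intro u v
  simp only
  rw [map_mul, h, hf]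

end der

lemma hom_ext_X {m : ℕ} {R : Type*} [CommRing R] {χ χ' : F m →* R}
    (h : ∀ k ≤ m, χ (X m k) = χ' (X m k)) : χ = χ' := by
  ext j
  have := h j (Nat.lt_succ_iff.mp j.2)
  rwa [X_val] at this

lemma der_ext {m : ℕ} {R : Type*} [CommRing R] {χ : F m →* R} {D D' : F m → R}
    (hD : IsDer χ D) (hD' : IsDer χ D') (h : ∀ k ≤ m, D (X m k) = D' (X m k)) (u : F m) :
    D u = D' u := by
  induction u using FreeGroup.induction_on with
  | C1 => rw [hD.one, hD'.one]
  | of j =>
    have := h j (Nat.lt_succ_iff.mp j.2)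
    rwa [X_val] at this
  | inv_of j ih => rw [hD.inv, hD'.inv, ih]
  | mul u v hu hv => rw [hD, hD', hu, hv]

/-- The character of `F_{m+1}` attached to a ring homomorphism from the Laurent polynomials. -/
noncomputable def chi {m : ℕ} {R : Type*} [CommRing R] (ε : Lam m →+* R) : F m →* R :=
  ((ε.comp (phi m) : MonoidAlgebra ℤ (F m) →+* R) : _ →* R).comp (MonoidAlgebra.of ℤ (F m))

/-- The derivation with values `x_k` at the generators. -/
noncomputable def der {m : ℕ} {R : Type*} [CommRing R] (ε : Lam m →+* R) (x : ℕ → R) (u : F m) :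
    R := ∑ j : Fin (m + 1), ε (phi m (fox j u)) * x j

lemma isDer_der {m : ℕ} {R : Type*} [CommRing R] (ε : Lam m →+* R) (x : ℕ → R) :
    IsDer (chi ε) (der ε x) := by
  intro u v
  unfold der
  rw [Finset.mul_sum, ← Finset.sum_add_distrib]
  refine Finset.sum_congr rfl fun j _ => ?_
  rw [fox_mul, map_add, map_mul, map_add, map_mul]
  change _ = _ + ε (phi m (MonoidAlgebra.of ℤ (F m) u)) * _
  ring

lemma der_X {m : ℕ} {R : Type*} [CommRing R] (ε : Lam m →+* R) (x : ℕ → R) {k : ℕ} (hk : k ≤ m) :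
    der ε x (X m k) = x k := by
  have h1 : X m k = of ⟨k, Nat.lt_succ_of_le hk⟩ := dif_pos (Nat.lt_succ_of_le hk)
  rw [h1, der, Finset.sum_eq_single ⟨k, Nat.lt_succ_of_le hk⟩]
  · rw [fox_of, if_pos rfl, map_one, map_one, one_mul]
  · intro j _ hj
    rw [fox_of, if_neg (Ne.symm hj), map_zero, map_zero, zero_mul]
  · intro h
    exact absurd (Finset.mem_univ _) h

/-- The characters of the generators `A_{ic}` acting on the free group. -/
lemma chi_A {m i c : ℕ} (hi : i < c) (hc : c ≤ m) {R : Type*} [CommRing R] (χ : F m →* R)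
    (u : F m) : χ (artin m (A m i c) u) = χ u := by
  have h : χ.comp (artin m (A m i c)).toMonoidHom = χ := by
    apply hom_ext_X
    intro k _
    change χ (artin m (A m i c) (X m k)) = _
    rw [artin_A_X c hi hc k]
    have h2 : ∀ g x : F m, χ (g * x * g⁻¹) = χ x := by
      intro g x
      rw [map_mul, map_mul]
      have := chi_inv_mul (χ := χ) g
      linear_combination χ x * this
    split_ifs with h1 h3
    · subst h1; exact h2 _ _
    · subst h3; exact h2 _ _
    · rfl
  exact DFunLike.congr_fun h u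

/-- The evaluation of Laurent polynomials at a point with nonzero real coordinates. -/
noncomputable def evHom (m : ℕ) (τ : ℕ → ℝˣ) : Multiplicative (Fin (m + 1) → ℤ) →* ℝ :=
  (Units.coeHom ℝ).comp
    { toFun := fun a => ∏ j : Fin (m + 1), τ (j : ℕ) ^ (Multiplicative.toAdd a j)
      map_one' := by simp
      map_mul' := by
        intro a b
        rw [← Finset.prod_mul_distrib]
        exact Finset.prod_congr rfl fun j _ => zpow_add _ _ _ }

noncomputable def ev (m : ℕ) (τ : ℕ → ℝˣ) : Lam m →+* ℝ :=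
  (AddMonoidAlgebra.lift ℤ ℝ (Fin (m + 1) → ℤ) (evHom m τ)).toRingHom

lemma chi_ev {m : ℕ} (τ : ℕ → ℝˣ) {k : ℕ} (hk : k ≤ m) : chi (ev m τ) (X m k) = τ k := by
  have h1 : X m k = of ⟨k, Nat.lt_succ_of_le hk⟩ := dif_pos (Nat.lt_succ_of_le hk)
  have h2 : phi m (MonoidAlgebra.of ℤ (F m) (X m k)) =
      AddMonoidAlgebra.of ℤ _ (ab m (X m k)) := by
    unfold phi
    simp
  change ev m τ (phi m (MonoidAlgebra.of ℤ (F m) (X m k))) = _
  rw [h2]
  have h3 : ab m (X m k) = Multiplicative.ofAdd (Pi.single ⟨k, Nat.lt_succ_of_le hk⟩ 1) := by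
    rw [h1, ab, lift_apply_of]
  have h4 : ev m τ (AddMonoidAlgebra.of ℤ _ (ab m (X m k))) = evHom m τ (ab m (X m k)) := by
    unfold ev
    simp
  rw [h4, h3]
  change ((∏ j : Fin (m + 1), τ (j : ℕ) ^ ((Pi.single ⟨k, Nat.lt_succ_of_le hk⟩ 1 :
    Fin (m + 1) → ℤ) j) : ℝˣ) : ℝ) = _
  rw [Finset.prod_eq_single ⟨k, Nat.lt_succ_of_le hk⟩]
  · simp
  · intro j _ hj
    rw [Pi.single_eq_of_ne hj, zpow_zero]
  · intro h
    exact absurd (Finset.mem_univ _) h

/-! ## The linear dynamics -/

/-- The partial sums. -/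
noncomputable def T (y : ℕ → ℝ) (l : ℕ) : ℝ := ∑ k ∈ Finset.range l, y k

lemma T_succ (y : ℕ → ℝ) (l : ℕ) : T y (l + 1) = T y l + y l := Finset.sum_range_succ _ _

/-- The linear forms of the reflections. -/
noncomputable def form (t q : ℝ) (c i : ℕ) (y : ℕ → ℝ) : ℝ :=
  (t * q - 1) * y i + (t - 1) * T y i + q * (t - 1) * (T y c - T y (i + 1))

/-- The coefficient of the powers of the reflections. -/
noncomputable def ce (l : ℝ) (e : ℤ) : ℝ := (l ^ e - 1) / (l - 1)

/-- The powers of the reflections. -/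
noncomputable def stp (t q : ℝ) (c i : ℕ) (e : ℤ) (y : ℕ → ℝ) : ℕ → ℝ :=
  Function.update y i (y i + ce (t * q) e * form t q c i y)

/-- The vector with coordinates `y`. -/
noncomputable def vec (t : ℝ) (c : ℕ) (y : ℕ → ℝ) (k : ℕ) : ℝ :=
  if k < c then t ^ (c - k) * y k else if k = c then -T y c else 0

lemma T_update {y : ℕ → ℝ} {i : ℕ} {δ : ℝ} (l : ℕ) :
    T (Function.update y i (y i + δ)) l = T y l + if i < l then δ else 0 := by
  induction l with
  | zero => simp [T]
  | succ l ih =>
    rw [T_succ, T_succ, ih]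
    by_cases h1 : i = l
    · subst h1
      simp
      ring
    · rw [Function.update_of_ne (Ne.symm h1)]
      by_cases h2 : i < l
      · rw [if_pos h2, if_pos (by omega)]
        ring
      · rw [if_neg h2, if_neg (by omega)]
        ring

lemma form_update {t q : ℝ} {c i : ℕ} (hi : i < c) (y : ℕ → ℝ) (δ : ℝ) :
    form t q c i (Function.update y i (y i + δ)) = form t q c i y + (t * q - 1) * δ := by
  unfold form
  rw [T_update, T_update, T_update, if_neg (lt_irrefl i), if_pos hi, if_pos (by omega)]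
  simp
  ring

lemma stp_stp {t q : ℝ} {c i : ℕ} (hi : i < c) (h0 : t * q ≠ 0) (h1 : t * q ≠ 1) (e f : ℤ)
    (y : ℕ → ℝ) : stp t q c i e (stp t q c i f y) = stp t q c i (e + f) y := by
  have h2 : t * q - 1 ≠ 0 := sub_ne_zero.mpr h1
  unfold stp
  rw [form_update hi]
  funext k
  by_cases hk : k = i
  · subst hk
    simp only [Function.update_self]
    unfold ce
    rw [zpow_add₀ h0]
    field_simp
    ring
  · simp only [Function.update_of_ne hk]

lemma stp_zero {t q : ℝ} {c i : ℕ} (y : ℕ → ℝ) : stp t q c i 0 y = y := by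
  unfold stp ce
  simp

section act

variable {m i c : ℕ} {t q : ℝ} {χ : F m →* ℝ}

lemma chi_U (ht : ∀ k < c, χ (X m k) = t) :
    ∀ c', i < c' → c' ≤ c → χ (U m i c') = t ^ (c' - 1 - i) := by
  intro c'
  induction c' with
  | zero => intro h; omega
  | succ c' ih =>
    intro h1 h2
    by_cases h3 : i = c'
    · subst h3
      rw [U_base]
      simp
    · rw [U_succ (by omega), map_mul, ih (by omega) (by omega), ht _ (by omega), ← pow_succ]
      congr 1
      omega

lemma der_U (ht : ∀ k < c, χ (X m k) = t) {D : F m → ℝ} (hD : IsDer χ D)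
    {y : ℕ → ℝ} (hy : ∀ k < c, D (X m k) = t ^ (c - k) * y k) :
    ∀ c', i < c' → c' ≤ c → D (U m i c') = t ^ (c - 1 - i) * (T y c' - T y (i + 1)) := by
  intro c'
  induction c' with
  | zero => intro h; omega
  | succ c' ih =>
    intro h1 h2
    by_cases h3 : i = c'
    · subst h3
      rw [U_base, hD.one]
      simp
    · rw [U_succ (by omega), hD, ih (by omega) (by omega), hy _ (by omega),
        chi_U ht c' (by omega) (by omega), T_succ y c']
      have : t ^ (c - 1 - i) = t ^ (c' - 1 - i) * t ^ (c - c') := by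
        rw [← pow_add]
        congr 1
        omega
      rw [this]
      ring

lemma vec_lt {y : ℕ → ℝ} {k : ℕ} (h : k < c) : vec t c y k = t ^ (c - k) * y k := if_pos h

lemma vec_self {y : ℕ → ℝ} : vec t c y c = -T y c := by
  unfold vec
  rw [if_neg (lt_irrefl c), if_pos rfl]

lemma vec_gt {y : ℕ → ℝ} {k : ℕ} (h : c < k) : vec t c y k = 0 := by
  unfold vec
  rw [if_neg (by omega), if_neg (by omega)]

lemma IsDer.alg1 {G R : Type*} [Group G] [CommRing R] {χ : G →* R} {D : G → R} (h : IsDer χ D)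
    (a b u : G) : D ((a * (u * b * u⁻¹)) * a * (a * (u * b * u⁻¹))⁻¹) =
      (1 - χ a) * (D a + χ a * ((1 - χ b) * D u + χ u * D b)) + χ a * χ b * D a := by
  have h1 : χ u * χ u⁻¹ = 1 := by rw [mul_comm, chi_inv_mul]
  rw [h.conj, h a, h.conj, map_mul, map_mul, map_mul]
  linear_combination (χ a * χ b * D a) * h1

lemma IsDer.alg2 {G R : Type*} [Group G] [CommRing R] {χ : G →* R} {D : G → R} (h : IsDer χ D)
    (a b u : G) : D ((u⁻¹ * a * u) * b * (u⁻¹ * a * u)⁻¹) =
      (1 - χ b) * (χ u⁻¹ * (D a - (1 - χ a) * D u)) + χ a * D b := by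
  have h1 : χ u⁻¹ * χ u = 1 := chi_inv_mul u
  rw [h.conj, h, h, h.inv]
  simp only [map_mul]
  linear_combination (χ a * D b) * h1

lemma stp_one {y : ℕ → ℝ} (h1 : t * q ≠ 1) :
    stp t q c i 1 y = Function.update y i (y i + form t q c i y) := by
  unfold stp ce
  rw [zpow_one, div_self (sub_ne_zero.mpr h1), one_mul]

lemma real1 {y : ℕ → ℝ} (hi : i < c) (h1 : t * q ≠ 1) :
    (1 - t) * (t ^ (c - i) * y i + t * ((1 - q) * (t ^ (c - 1 - i) * (T y c - T y (i + 1))) +
      t ^ (c - 1 - i) * -T y c)) + t * q * (t ^ (c - i) * y i) = vec t c (stp t q c i 1 y) i := by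
  have hpow : t ^ (c - i) = t * t ^ (c - 1 - i) := by
    rw [← pow_succ']
    congr 1
    omega
  rw [vec_lt hi, stp_one h1, Function.update_self, hpow, T_succ]
  unfold form
  rw [T_succ]
  ring

lemma real2 {y : ℕ → ℝ} {w : ℝ} (hi : i < c) (h1 : t * q ≠ 1) (hw : w * t ^ (c - 1 - i) = 1) :
    (1 - q) * (w * (t ^ (c - i) * y i - (1 - t) * (t ^ (c - 1 - i) * (T y c - T y (i + 1))))) +
      t * -T y c = vec t c (stp t q c i 1 y) c := by
  have hpow : t ^ (c - i) = t * t ^ (c - 1 - i) := by
    rw [← pow_succ']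
    congr 1
    omega
  rw [vec_self, stp_one h1, T_update, if_pos hi, hpow]
  unfold form
  rw [T_succ]
  linear_combination ((1 - q) * (t * y i - (1 - t) * (T y c - (T y i + y i)))) * hw

/-- The generator `A_{ic}` acts on the derivations by the reflection `stp t q c i 1`. -/
lemma der_A_aux {D D' : F m → ℝ} (hi : i < c) (hc : c ≤ m) (ht : ∀ k < c, χ (X m k) = t)
    (hq : χ (X m c) = q) (h1 : t * q ≠ 1) {y : ℕ → ℝ} (hD : IsDer χ D) (hD' : IsDer χ D')
    (hy : ∀ k ≤ m, D (X m k) = vec t c y k)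
    (hy' : ∀ k ≤ m, D' (X m k) = vec t c (stp t q c i 1 y) k) (u : F m) :
    D (artin m (A m i c) u) = D' u := by
  have hcomp : IsDer χ fun u => D (artin m (A m i c) u) :=
    hD.comp (f := (artin m (A m i c)).toMonoidHom) fun u => chi_A hi hc χ u
  refine der_ext hcomp hD' (fun k hk => ?_) u
  have hyk : ∀ k < c, D (X m k) = t ^ (c - k) * y k := fun k hk => by
    rw [hy k (by omega), vec_lt hk]
  have hyc : D (X m c) = -T y c := by rw [hy c hc, vec_self]
  have hU := der_U ht hD hyk c hi le_rfl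
  have hχU := chi_U ht c hi le_rfl
  have hw : χ (U m i c)⁻¹ * t ^ (c - 1 - i) = 1 := by
    rw [← hχU, chi_inv_mul]
  rw [artin_A_X c hi hc k, hy' k hk]
  by_cases hki : k = i
  · subst hki
    rw [if_pos rfl, hD.alg1, hU, hyc, hyk k hi, ht k hi, hq, hχU]
    exact real1 hi h1
  · rw [if_neg hki]
    by_cases hkc : k = c
    · subst hkc
      rw [if_pos rfl, hD.alg2, hU, hyc, hyk i hi, ht i hi, hq]
      exact real2 hi h1 hw
    · rw [if_neg hkc, hy k hk]
      by_cases h : k < c
      · rw [vec_lt h, vec_lt h]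
        unfold stp
        rw [Function.update_of_ne hki]
      · rw [vec_gt (by omega), vec_gt (by omega)]

lemma der_A {ε : Lam m →+* ℝ} (hi : i < c) (hc : c ≤ m) (ht : ∀ k < c, chi ε (X m k) = t)
    (hq : chi ε (X m c) = q) (h1 : t * q ≠ 1) (y : ℕ → ℝ) (u : F m) :
    der ε (vec t c y) (artin m (A m i c) u) = der ε (vec t c (stp t q c i 1 y)) u :=
  der_A_aux hi hc ht hq h1 (isDer_der ε _) (isDer_der ε _) (fun _ hk => der_X ε _ hk)
    (fun _ hk => der_X ε _ hk) u

/-- The powers of the generators. -/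
lemma der_A_zpow {ε : Lam m →+* ℝ} (hi : i < c) (hc : c ≤ m) (ht : ∀ k < c, chi ε (X m k) = t)
    (hq : chi ε (X m c) = q) (h0 : t * q ≠ 0) (h1 : t * q ≠ 1) (e : ℤ) :
    ∀ (y : ℕ → ℝ) (u : F m), der ε (vec t c y) (artin m (A m i c ^ e) u) =
      der ε (vec t c (stp t q c i e y)) u := by
  induction e using Int.induction_on with
  | zero =>
    intro y u
    rw [stp_zero, zpow_zero, map_one]
    rfl
  | succ e ih =>
    intro y u
    rw [zpow_add_one, map_mul, MulAut.mul_apply, ih, der_A hi hc ht hq h1, stp_stp hi h0 h1,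
      add_comm 1 (e : ℤ)]
  | pred e ih =>
    intro y u
    rw [zpow_sub_one, map_mul, MulAut.mul_apply, ih]
    have h2 := der_A hi hc ht hq h1 (stp t q c i (-1) (stp t q c i (-(e : ℤ)) y))
      (artin m (A m i c)⁻¹ u)
    rw [stp_stp hi h0 h1 1, add_neg_cancel, stp_zero, stp_stp hi h0 h1] at h2
    have h3 : artin m (A m i c) (artin m (A m i c)⁻¹ u) = u := by
      rw [← MulAut.mul_apply, ← map_mul, mul_inv_cancel, map_one]
      rfl
    rw [h3] at h2
    rw [← h2, show -(e : ℤ) - 1 = -1 + -(e : ℤ) by ring]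

end act

/-! ## The limit `q → 0` -/

/-- The cyclic distance from `j` up to `i`. -/
def dst (c j i : ℕ) : ℕ := if j < i then i - j else i + c - j

/-- The normalized partial sums, starting at the last letter `j`. -/
noncomputable def P (c j r : ℕ) (q : ℝ) (y : ℕ → ℝ) : ℝ :=
  (if j + r ≤ c then T y (j + r) else T y c + q⁻¹ * T y (j + r - c)) - T y j

/-- The right-hand side of the recursion. -/
noncomputable def rec' (c a r : ℕ) (l κ q : ℝ) (Q : ℕ → ℝ) : ℝ :=
  l * (q * (Q (a + 1) - Q a)) + κ * (q * (Q c - Q (a + 1)) + Q a) +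
    if a + r ≤ c then q * (Q (a + r) - Q a) else q * (Q c - Q a) + Q (a + r - c)

lemma T_zero (y : ℕ → ℝ) : T y 0 = 0 := by simp [T]

lemma stp_eq {t q : ℝ} {c i : ℕ} (hq : q ≠ 0) (h1 : t * q ≠ 1) (e : ℤ) (y : ℕ → ℝ) :
    ce (t * q) e * form t q c i y = ((t * q) ^ e - 1) * (T y (i + 1) - T y i) +
      ce (t * q) e * (q * (t - 1)) * (T y c - T y (i + 1) + q⁻¹ * T y i) := by
  have h2 : ce (t * q) e * (t * q - 1) = (t * q) ^ e - 1 := by
    unfold ce
    rw [div_mul_cancel₀ _ (sub_ne_zero.mpr h1)]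
  rw [← h2, T_succ]
  unfold form
  rw [T_succ]
  field_simp
  ring

lemma P_up {t q : ℝ} {c i j r : ℕ} (hq : q ≠ 0) (h1 : t * q ≠ 1) (e : ℤ) (y : ℕ → ℝ)
    (hji : j < i) (hi : i < c) (hr : 1 ≤ r) (hrc : r ≤ c) :
    q * P c i r q (stp t q c i e y) =
      rec' c (i - j) r ((t * q) ^ e - 1) (ce (t * q) e * (q * (t - 1))) q
        (fun s => P c j s q y) := by
  have hs := stp_eq (c := c) (i := i) hq h1 e y
  have hT : ∀ l, T (stp t q c i e y) l = T y l + if i < l then ce (t * q) e * form t q c i y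
      else 0 := fun l => T_update l
  have ei : j + (i - j) = i := by omega
  have ei1 : j + (i - j + 1) = i + 1 := by omega
  have hqq : q * q⁻¹ = 1 := mul_inv_cancel₀ hq
  have hPa : P c j (i - j) q y = T y i - T y j := by
    unfold P
    rw [ei, if_pos (by omega)]
  have hPa1 : P c j (i - j + 1) q y = T y (i + 1) - T y j := by
    unfold P
    rw [ei1, if_pos (by omega)]
  have hPc : P c j c q y = T y c + q⁻¹ * T y j - T y j := by
    unfold P
    by_cases hj : j = 0
    · subst hj
      rw [if_pos (by omega), T_zero, zero_add]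
      ring
    · rw [if_neg (by omega)]
      have : j + c - c = j := by omega
      rw [this]
  unfold rec'
  simp only
  rw [hPa, hPa1, hPc]
  by_cases h : i + r ≤ c
  · have e1 : P c i r q (stp t q c i e y) = T y (i + r) + ce (t * q) e * form t q c i y - T y i := by
      unfold P
      rw [if_pos h, hT, hT, if_pos (by omega), if_neg (lt_irrefl i), add_zero]
    have e2 : P c j (i - j + r) q y = T y (i + r) - T y j := by
      unfold P
      have : j + (i - j + r) = i + r := by omega
      rw [this, if_pos h]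
    rw [e1, if_pos (by omega), e2, hs]
    linear_combination (ce (t * q) e * (q * (t - 1)) * (T y i - T y j)) * hqq
  · by_cases h' : i - j + r ≤ c
    · have e1 : P c i r q (stp t q c i e y) =
          T y c + ce (t * q) e * form t q c i y + q⁻¹ * T y (i + r - c) - T y i := by
        unfold P
        rw [if_neg h, hT, hT, hT, if_pos hi, if_neg (by omega), if_neg (lt_irrefl i), add_zero,
          add_zero]
      have e2 : P c j (i - j + r) q y = T y c + q⁻¹ * T y (i + r - c) - T y j := by
        unfold P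
        have : j + (i - j + r) = i + r := by omega
        rw [this, if_neg h]
      rw [e1, if_pos h', e2, hs]
      linear_combination (ce (t * q) e * (q * (t - 1)) * (T y i - T y j)) * hqq
    · have e1 : P c i r q (stp t q c i e y) =
          T y c + ce (t * q) e * form t q c i y + q⁻¹ * T y (i + r - c) - T y i := by
        unfold P
        rw [if_neg h, hT, hT, hT, if_pos hi, if_neg (by omega), if_neg (lt_irrefl i), add_zero,
          add_zero]
      have e2 : P c j (i - j + r - c) q y = T y (i + r - c) - T y j := by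
        unfold P
        have : j + (i - j + r - c) = i + r - c := by omega
        rw [this, if_pos (by omega)]
      rw [e1, if_neg h', e2, hs]
      linear_combination (ce (t * q) e * (q * (t - 1)) * (T y i - T y j) + T y (i + r - c)
        - T y j) * hqq

lemma P_down {t q : ℝ} {c i j r : ℕ} (hq : q ≠ 0) (h1 : t * q ≠ 1) (e : ℤ) (y : ℕ → ℝ)
    (hij : i < j) (hj : j < c) (hr : 1 ≤ r) (hrc : r ≤ c) :
    P c i r q (stp t q c i e y) =
      rec' c (i + c - j) r ((t * q) ^ e - 1) (ce (t * q) e * (q * (t - 1))) q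
        (fun s => P c j s q y) := by
  have hs := stp_eq (c := c) (i := i) hq h1 e y
  have hT : ∀ l, T (stp t q c i e y) l = T y l + if i < l then ce (t * q) e * form t q c i y
      else 0 := fun l => T_update l
  have hqq : q * q⁻¹ = 1 := mul_inv_cancel₀ hq
  have hPa : P c j (i + c - j) q y = T y c + q⁻¹ * T y i - T y j := by
    unfold P
    have e1 : j + (i + c - j) = i + c := by omega
    rw [e1]
    by_cases h0 : i = 0
    · subst h0
      rw [if_pos (by omega), zero_add, T_zero]
      ring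
    · rw [if_neg (by omega)]
      have : i + c - c = i := by omega
      rw [this]
  have hPa1 : P c j (i + c - j + 1) q y = T y c + q⁻¹ * T y (i + 1) - T y j := by
    unfold P
    have e1 : j + (i + c - j + 1) = i + 1 + c := by omega
    have e2 : i + 1 + c - c = i + 1 := by omega
    rw [e1, if_neg (by omega), e2]
  have hPc : P c j c q y = T y c + q⁻¹ * T y j - T y j := by
    unfold P
    rw [if_neg (by omega)]
    have : j + c - c = j := by omega
    rw [this]
  unfold rec'
  simp only
  rw [hPa, hPa1, hPc]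
  by_cases h : i + r ≤ j
  · have e1 : P c i r q (stp t q c i e y) = T y (i + r) + ce (t * q) e * form t q c i y - T y i := by
      unfold P
      rw [if_pos (by omega), hT, hT, if_pos (by omega), if_neg (lt_irrefl i), add_zero]
    have e2 : P c j (i + c - j + r) q y = T y c + q⁻¹ * T y (i + r) - T y j := by
      unfold P
      have e3 : j + (i + c - j + r) = i + r + c := by omega
      have e4 : i + r + c - c = i + r := by omega
      rw [e3, if_neg (by omega), e4]
    rw [e1, if_pos (by omega), e2, hs]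
    linear_combination (-((t * q) ^ e - 1) * (T y (i + 1) - T y i) -
      ce (t * q) e * (q * (t - 1)) * (T y j - T y (i + 1)) - (T y (i + r) - T y i)) * hqq
  · have e2 : P c j (i + c - j + r - c) q y =
        (if i + r ≤ c then T y (i + r) else T y c + q⁻¹ * T y (i + r - c)) - T y j := by
      unfold P
      have e3 : j + (i + c - j + r - c) = i + r := by omega
      rw [e3]
    have e1 : P c i r q (stp t q c i e y) = ce (t * q) e * form t q c i y +
        (if i + r ≤ c then T y (i + r) else T y c + q⁻¹ * T y (i + r - c)) - T y i := by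
      unfold P
      by_cases h' : i + r ≤ c
      · rw [if_pos h', hT, hT, if_pos (by omega), if_neg (lt_irrefl i), if_pos h', add_zero]
        ring
      · rw [if_neg h', hT, hT, hT, if_pos (by omega), if_neg (by omega), if_neg (lt_irrefl i),
          if_neg h', add_zero, add_zero]
        ring
    rw [e1, if_neg (show ¬ i + c - j + r ≤ c by omega), e2, hs]
    linear_combination (-((t * q) ^ e - 1) * (T y (i + 1) - T y i) -
      ce (t * q) e * (q * (t - 1)) * (T y j - T y (i + 1)) - (T y j - T y i)) * hqq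

/-! ### The recursion for the limits -/

/-- The limit of the recursion. -/
noncomputable def lim (c a : ℕ) (κ : ℝ) (p : ℕ → ℝ) (r : ℕ) : ℝ :=
  if r = 0 then 0 else κ * p a + if a + r ≤ c then 0 else p (a + r - c)

/-- The sign condition. -/
def Inv (p : ℕ → ℝ) (d : ℕ) : Prop :=
  ∃ σ : ℝ, (σ = 1 ∨ σ = -1) ∧
    ∀ r s, 1 ≤ r → r ≤ s → s ≤ d → 0 < σ * p r ∧ σ * p r ≤ 2 * (σ * p s)

lemma Inv.step_pos {p : ℕ → ℝ} {c a d : ℕ} {κ : ℝ} (h : Inv p d) (ha : 1 ≤ a) (had : a ≤ d)
    (hκ : 0 < κ) : Inv (lim c a κ p) (c - 1) := by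
  obtain ⟨σ, hσ, h⟩ := h
  refine ⟨σ, hσ, fun r s hr hrs hs => ?_⟩
  have hpa := (h a a ha le_rfl had).1
  have h1 : 0 < κ * (σ * p a) := mul_pos hκ hpa
  have hr0 : ¬ r = 0 := by omega
  have hs0 : ¬ s = 0 := by omega
  unfold lim
  rw [if_neg hr0, if_neg hs0]
  by_cases hc1 : a + r ≤ c
  · rw [if_pos hc1, add_zero]
    have e1 : σ * (κ * p a) = κ * (σ * p a) := by ring
    refine ⟨by rw [e1]; exact h1, ?_⟩
    by_cases hc2 : a + s ≤ c
    · rw [if_pos hc2, add_zero, e1]
      linarith
    · rw [if_neg hc2]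
      have h2 := (h (a + s - c) (a + s - c) (by omega) le_rfl (by omega)).1
      have e2 : σ * (κ * p a + p (a + s - c)) = κ * (σ * p a) + σ * p (a + s - c) := by ring
      rw [e1, e2]
      linarith
  · rw [if_neg hc1, if_neg (show ¬ a + s ≤ c by omega)]
    have h2 := h (a + r - c) (a + s - c) (by omega) (by omega) (by omega)
    have e2 : ∀ x, σ * (κ * p a + p x) = κ * (σ * p a) + σ * p x := fun x => by ring
    rw [e2, e2]
    constructor <;> linarith [h2.1, h2.2]

lemma Inv.step_neg {p : ℕ → ℝ} {c a d : ℕ} {κ : ℝ} (h : Inv p d) (ha : 1 ≤ a) (had : a ≤ d)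
    (hκ : κ ≤ -5) : Inv (lim c a κ p) (c - 1) := by
  obtain ⟨σ, hσ, h⟩ := h
  refine ⟨-σ, ?_, fun r s hr hrs hs => ?_⟩
  · rcases hσ with h | h
    · right; rw [h]
    · left; rw [h]; norm_num
  have hpa := (h a a ha le_rfl had).1
  have key : ∀ r, 1 ≤ r → r ≤ c - 1 → ∃ z, 0 ≤ z ∧ z ≤ 2 * (σ * p a) ∧
      -σ * lim c a κ p r = -κ * (σ * p a) - z := by
    intro r hr hrc
    unfold lim
    rw [if_neg (by omega)]
    by_cases hc1 : a + r ≤ c
    · rw [if_pos hc1]
      exact ⟨0, le_rfl, by linarith, by ring⟩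
    · rw [if_neg hc1]
      have h2 := h (a + r - c) a (by omega) (by omega) had
      exact ⟨σ * p (a + r - c), h2.1.le, h2.2, by ring⟩
  obtain ⟨z1, hz1, hz1', e1⟩ := key r hr (by omega)
  obtain ⟨z2, hz2, hz2', e2⟩ := key s (by omega) hs
  rw [e1, e2]
  have h5 : 5 * (σ * p a) ≤ -κ * (σ * p a) := by
    have : (5 : ℝ) ≤ -κ := by linarith
    exact mul_le_mul_of_nonneg_right this hpa.le
  constructor <;> nlinarith

lemma Inv.step_one {p : ℕ → ℝ} {c a d : ℕ} {κ : ℝ} (h : Inv p d) (ha : 1 ≤ a) (had : a ≤ d)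
    (hκ : κ = -1) : Inv (lim c a κ p) (c - a) := by
  obtain ⟨σ, hσ, h⟩ := h
  refine ⟨-σ, ?_, fun r s hr hrs hs => ?_⟩
  · rcases hσ with h | h
    · right; rw [h]
    · left; rw [h]; norm_num
  have hpa := (h a a ha le_rfl had).1
  have key : ∀ r, 1 ≤ r → r ≤ c - a → -σ * lim c a κ p r = σ * p a := by
    intro r hr hrc
    unfold lim
    rw [if_neg (by omega), if_pos (by omega), hκ]
    ring
  rw [key r hr (by omega), key s (by omega) hs]
  constructor <;> linarith

/-! ### Limits -/

open Filter Topology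

/-- The limits of the normalized partial sums. -/
def Lim (c j D : ℕ) (y : ℝ → ℕ → ℝ) (p : ℕ → ℝ) : Prop :=
  ∀ r ≤ c, Tendsto (fun q : ℝ => q ^ D * P c j r q (y q)) (𝓝[>] 0) (𝓝 (p r))

lemma mul_rec' {c a r : ℕ} {l κ q s : ℝ} {Q : ℕ → ℝ} :
    s * rec' c a r l κ q Q = rec' c a r l κ q (fun x => s * Q x) := by
  unfold rec'
  split_ifs <;> ring

lemma tendsto_rec' {c a r : ℕ} {l κ0 : ℝ} {κ : ℝ → ℝ} {Q : ℝ → ℕ → ℝ} {p : ℕ → ℝ} (ha : a < c)
    (hr : 1 ≤ r) (hrc : r ≤ c) (hκ : Tendsto κ (𝓝[>] 0) (𝓝 κ0))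
    (hQ : ∀ r ≤ c, Tendsto (fun q => Q q r) (𝓝[>] 0) (𝓝 (p r))) :
    Tendsto (fun q => rec' c a r l (κ q) q (Q q)) (𝓝[>] 0) (𝓝 (lim c a κ0 p r)) := by
  have hq : Tendsto (fun q : ℝ => q) (𝓝[>] 0) (𝓝 0) := tendsto_nhdsWithin_of_tendsto_nhds
    (by exact tendsto_id)
  have e1 : lim c a κ0 p r = l * (0 * (p (a + 1) - p a)) + κ0 * (0 * (p c - p (a + 1)) + p a) +
      if a + r ≤ c then 0 * (p (a + r) - p a) else 0 * (p c - p a) + p (a + r - c) := by
    unfold lim
    rw [if_neg (by omega)]
    split_ifs <;> ring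
  rw [e1]
  unfold rec'
  refine Tendsto.add (Tendsto.add ?_ ?_) ?_
  · exact (hq.mul ((hQ (a + 1) (by omega)).sub (hQ a (by omega)))).const_mul l
  · exact hκ.mul ((hq.mul ((hQ c le_rfl).sub (hQ (a + 1) (by omega)))).add (hQ a (by omega)))
  · by_cases h : a + r ≤ c
    · simp only [if_pos h]
      exact hq.mul ((hQ (a + r) h).sub (hQ a (by omega)))
    · simp only [if_neg h]
      exact (hq.mul ((hQ c le_rfl).sub (hQ a (by omega)))).add (hQ (a + r - c) (by omega))

/-- The parameter `t` as a function of `q`. -/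
noncomputable def tt (q : ℝ) : ℝ := (4 * q)⁻¹

lemma tt_mul {q : ℝ} (hq : q ≠ 0) : tt q * q = 1 / 4 := by
  unfold tt
  field_simp

/-- The limit of the coefficient `κ`. -/
noncomputable def kap (e : ℤ) : ℝ := ce (1 / 4) e * (1 / 4)

lemma tendsto_kap (e : ℤ) : Tendsto (fun q : ℝ => ce (1 / 4) e * (1 / 4 - q)) (𝓝[>] 0)
    (𝓝 (kap e)) := by
  have hq : Tendsto (fun q : ℝ => q) (𝓝[>] 0) (𝓝 0) := tendsto_nhdsWithin_of_tendsto_nhds
    (by exact tendsto_id)
  have := (hq.const_sub (1 / 4)).const_mul (ce (1 / 4) e)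
  rwa [sub_zero] at this

lemma Lim.step {c i j D : ℕ} {y : ℝ → ℕ → ℝ} {p : ℕ → ℝ} (h : Lim c j D y p) (hi : i < c)
    (hj : j < c) (hij : i ≠ j) (e : ℤ) :
    Lim c i (if j < i then D + 1 else D) (fun q => stp (tt q) q c i e (y q))
      (lim c (dst c j i) (kap e) p) := by
  intro r hrc
  by_cases hr : r = 0
  · subst hr
    have e1 : ∀ q y, P c i 0 q y = 0 := by
      intro q y
      unfold P
      rw [if_pos (by omega), add_zero, sub_self]
    simp only [e1, mul_zero, lim, if_true]
    exact tendsto_const_nhds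
  · have ha : dst c j i < c := by
      unfold dst
      split_ifs <;> omega
    have h1 : Tendsto (fun q : ℝ => rec' c (dst c j i) r ((1 / 4 : ℝ) ^ e - 1)
        (ce (1 / 4) e * (1 / 4 - q)) q (fun s => q ^ D * P c j s q (y q))) (𝓝[>] 0)
        (𝓝 (lim c (dst c j i) (kap e) p r)) :=
      tendsto_rec' ha (by omega) hrc (tendsto_kap e) h
    refine h1.congr' ?_
    filter_upwards [self_mem_nhdsWithin] with q hq
    have hq0 : q ≠ 0 := ne_of_gt hq
    have e0 : tt q * q = 1 / 4 := tt_mul hq0
    have e1 : tt q * q ≠ 1 := by rw [e0]; norm_num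
    have e2 : q * (tt q - 1) = 1 / 4 - q := by linear_combination e0
    rw [← mul_rec']
    by_cases hji : j < i
    · have hd : dst c j i = i - j := by
        unfold dst
        rw [if_pos hji]
      have h2 := P_up hq0 e1 e (y q) hji hi (by omega) hrc
      rw [e0, e2] at h2
      rw [if_pos hji, hd, ← h2, pow_succ]
      ring
    · have hd : dst c j i = i + c - j := by
        unfold dst
        rw [if_neg hji]
      have h2 := P_down hq0 e1 e (y q) (by omega : i < j) hj (by omega) hrc
      rw [e0, e2] at h2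
      rw [if_neg hji, hd, ← h2]

lemma kap_neg_one : kap (-1) = -1 := by
  unfold kap ce
  norm_num

lemma kap_other {e : ℤ} (h0 : e ≠ 0) (h1 : e ≠ -1) : 0 < kap e ∨ kap e ≤ -5 := by
  have hk : kap e = (1 - (1 / 4 : ℝ) ^ e) / 3 := by
    unfold kap ce
    ring
  rw [hk]
  rcases lt_or_gt_of_ne h0 with h | h
  · right
    obtain ⟨n, rfl⟩ : ∃ n : ℕ, e = -((n : ℤ) + 2) := ⟨(-e - 2).toNat, by omega⟩
    have h2 : (1 / 4 : ℝ) ^ (-((n : ℤ) + 2)) = 4 ^ (n + 2) := by
      rw [zpow_neg, one_div, inv_zpow, inv_inv]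
      norm_cast
    have h3 : (1 : ℝ) ≤ 4 ^ n := one_le_pow₀ (by norm_num)
    rw [h2, pow_add]
    nlinarith
  · left
    obtain ⟨n, rfl⟩ : ∃ n : ℕ, e = (n : ℤ) + 1 := ⟨(e - 1).toNat, by omega⟩
    have h2 : (1 / 4 : ℝ) ^ ((n : ℤ) + 1) = (1 / 4) ^ (n + 1) := by norm_cast
    have h3 : (1 / 4 : ℝ) ^ (n + 1) < 1 := pow_lt_one₀ (by norm_num) (by norm_num) (by omega)
    rw [h2]
    linarith

/-! ### Words -/

/-- The action of a word. -/
noncomputable def dyn (t q : ℝ) (c : ℕ) : List (ℕ × ℤ) → (ℕ → ℝ) → (ℕ → ℝ)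
  | [], y => y
  | (i, e) :: w, y => dyn t q c w (stp t q c i e y)

/-- The words for which the leading coefficient does not vanish. -/
def NB (c : ℕ) : ℕ → ℕ → List (ℕ × ℤ) → Prop
  | _, _, [] => True
  | j, d, (i, e) :: w => i < c ∧ i ≠ j ∧ e ≠ 0 ∧ dst c j i ≤ d ∧
      NB c i (if e = -1 then c - dst c j i else c - 1) w

lemma dst_pos {c j i : ℕ} (_ : i < c) (hj : j < c) (_ : i ≠ j) : 1 ≤ dst c j i := by
  unfold dst
  split_ifs <;> omega

lemma dst_lt {c j i : ℕ} (hi : i < c) (hj : j < c) (h : i ≠ j) : dst c j i < c := by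
  unfold dst
  split_ifs <;> omega

lemma Inv.step {p : ℕ → ℝ} {c a d : ℕ} {e : ℤ} (h : Inv p d) (ha : 1 ≤ a) (had : a ≤ d)
    (he : e ≠ 0) : Inv (lim c a (kap e) p) (if e = -1 then c - a else c - 1) := by
  by_cases h1 : e = -1
  · rw [if_pos h1]
    exact h.step_one ha had (by rw [h1, kap_neg_one])
  · rw [if_neg h1]
    rcases kap_other he h1 with h2 | h2
    · exact h.step_pos ha had h2
    · exact h.step_neg ha had h2

lemma main_ind (c b : ℕ) : ∀ (w : List (ℕ × ℤ)) (j D d : ℕ) (y : ℝ → ℕ → ℝ) (p : ℕ → ℝ),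
    j < c → d < c → 1 ≤ d → Lim c j D y p → Inv p d → (1 ≤ D ∨ j < b) → NB c j d w →
    ∃ (j' D' d' : ℕ) (p' : ℕ → ℝ), j' < c ∧ 1 ≤ d' ∧
      Lim c j' D' (fun q => dyn (tt q) q c w (y q)) p' ∧ Inv p' d' ∧ (1 ≤ D' ∨ j' < b) := by
  intro w
  induction w with
  | nil =>
    intro j D d y p hj _ hd hL hI hb _
    exact ⟨j, D, d, p, hj, hd, hL, hI, hb⟩
  | cons x w ih =>
    obtain ⟨i, e⟩ := x
    intro j D d y p hj hdc hd hL hI hb hw
    obtain ⟨hi, hij, he, had, hw⟩ := hw
    have h1 := dst_pos hi hj hij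
    have h2 := dst_lt hi hj hij
    refine ih i (if j < i then D + 1 else D) _ _ _ hi ?_ ?_ (hL.step hi hj hij e)
      (hI.step h1 had he) ?_ hw
    · split_ifs <;> omega
    · split_ifs <;> omega
    · split_ifs with h
      · left; omega
      · rcases hb with h | h
        · left; exact h
        · right; omega

/-- The coordinate vector of the letter `b`. -/
noncomputable def unit (b : ℕ) (k : ℕ) : ℝ := if k = b then 1 else 0

lemma T_unit (b l : ℕ) : T (unit b) l = if b < l then 1 else 0 := by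
  induction l with
  | zero => simp [T]
  | succ l ih =>
    rw [T_succ, ih]
    unfold unit
    by_cases h1 : l = b
    · subst h1
      simp
    · rw [if_neg h1, add_zero]
      by_cases h2 : b < l
      · rw [if_pos h2, if_pos (by omega)]
      · rw [if_neg h2, if_neg (by omega)]

lemma lim_unit {c b : ℕ} (hb : b < c) :
    Lim c b 0 (fun _ => unit b) (fun r => if r = 0 then 0 else 1) := by
  intro r hr
  have e1 : ∀ q : ℝ, q ^ 0 * P c b r q (unit b) = if r = 0 then 0 else 1 := by
    intro q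
    rw [pow_zero, one_mul]
    unfold P
    rw [T_unit, T_unit, T_unit, T_unit]
    by_cases h0 : r = 0
    · subst h0
      simp [hb.le]
    · rw [if_neg h0, if_neg (lt_irrefl b), sub_zero]
      by_cases h1 : b + r ≤ c
      · rw [if_pos h1, if_pos (by omega)]
      · rw [if_neg h1, if_pos hb, if_neg (by omega), mul_zero, add_zero]
  simp only [e1]
  exact tendsto_const_nhds

lemma inv_unit (d : ℕ) : Inv (fun r => if r = 0 then 0 else 1) d := by
  refine ⟨1, Or.inl rfl, fun r s hr hrs hs => ?_⟩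
  simp only
  rw [if_neg (by omega), if_neg (by omega)]
  norm_num

/-- A nonempty word with nonvanishing leading coefficient does not fix the vector `unit b` for all
small `q`. -/
lemma exists_ne {c b : ℕ} {w : List (ℕ × ℤ)} (hw : w ≠ []) (hb : b < c) (h : NB c b (c - 1) w) :
    ∃ q : ℝ, 0 < q ∧ ∃ l < c, dyn (tt q) q c w (unit b) l ≠ unit b l := by
  by_contra hcon
  push Not at hcon
  obtain ⟨⟨i, e⟩, w', rfl⟩ := List.exists_cons_of_ne_nil hw
  obtain ⟨hi, hij, he, had, hw'⟩ := h
  have h1 := dst_pos hi hb hij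
  have h2 := dst_lt hi hb hij
  obtain ⟨j, D, d, p, hj, hd, hL, hI, hD⟩ := main_ind c b w' i (if b < i then 0 + 1 else 0)
    (if e = -1 then c - dst c b i else c - 1) _ _ hi (by split_ifs <;> omega)
    (by split_ifs <;> omega) ((lim_unit hb).step hi hb hij e) ((inv_unit (c - 1)).step h1 had he)
    (by
      split_ifs with h
      · left; omega
      · right; omega) hw'
  obtain ⟨σ, hσ, hI⟩ := hI
  have hp := (hI 1 1 le_rfl le_rfl hd).1
  have hp0 : p 1 ≠ 0 := by
    intro h0
    rw [h0, mul_zero] at hp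
    exact lt_irrefl _ hp
  apply hp0
  have hL1 := hL 1 (by omega)
  have hlim : Tendsto (fun q : ℝ => q ^ D * unit b j) (𝓝[>] 0) (𝓝 (p 1)) := by
    refine hL1.congr' ?_
    filter_upwards [self_mem_nhdsWithin] with q hq
    have h3 := hcon q hq j hj
    unfold P
    rw [if_pos (by omega), T_succ, add_sub_cancel_left]
    congr 1
  have hzero : Tendsto (fun q : ℝ => q ^ D * unit b j) (𝓝[>] 0) (𝓝 0) := by
    unfold unit
    by_cases hjb : j = b
    · rw [if_pos hjb]
      have hD1 : D ≠ 0 := by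
        rcases hD with h | h
        · omega
        · omega
      have h4 : Tendsto (fun q : ℝ => q ^ D * 1) (𝓝 0) (𝓝 (0 ^ D * 1)) :=
        ((continuous_pow D).tendsto 0).mul_const 1
      rw [zero_pow hD1, zero_mul] at h4
      exact tendsto_nhdsWithin_of_tendsto_nhds h4
    · rw [if_neg hjb]
      simp only [mul_zero]
      exact tendsto_const_nhds
  exact tendsto_nhds_unique hlim hzero

lemma word_cons (m c : ℕ) (s : ℕ × ℤ) (w : List (ℕ × ℤ)) :
    word m c (s :: w) = A m s.1 c ^ s.2 * word m c w := by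
  unfold word
  rw [List.map_cons, List.prod_cons]

lemma der_word {m c : ℕ} {t q : ℝ} {ε : Lam m →+* ℝ} (hc : c ≤ m)
    (ht : ∀ k < c, chi ε (X m k) = t) (hq : chi ε (X m c) = q) (h0 : t * q ≠ 0)
    (h1 : t * q ≠ 1) (w : List (ℕ × ℤ)) (hw : ∀ s ∈ w, s.1 < c) :
    ∀ (y : ℕ → ℝ) (u : F m), der ε (vec t c y) (artin m (word m c w) u) =
      der ε (vec t c (dyn t q c w y)) u := by
  induction w with
  | nil =>
    intro y u
    have : word m c [] = 1 := rfl
    rw [this, map_one]
    rfl
  | cons x w ih =>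
    obtain ⟨i, e⟩ := x
    intro y u
    have hi : i < c := hw (i, e) List.mem_cons_self
    rw [word_cons, map_mul, MulAut.mul_apply, der_A_zpow hi hc ht hq h0 h1,
      ih (fun s hs => hw s (List.mem_cons_of_mem _ hs))]
    rfl

lemma der_of_gassner {m : ℕ} {R : Type*} [CommRing R] {ε : Lam m →+* R} {β : Braid m}
    (h : gassner β = 1) (x : ℕ → R) {k : ℕ} (hk : k ≤ m) :
    der ε x (artin m β (X m k)) = x k := by
  have h1 : X m k = of ⟨k, Nat.lt_succ_of_le hk⟩ := dif_pos (Nat.lt_succ_of_le hk)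
  have h2 : ∀ j : Fin (m + 1), phi m (fox j (artin m β (of ⟨k, Nat.lt_succ_of_le hk⟩))) =
      (1 : Matrix (Fin (m + 1)) (Fin (m + 1)) (Lam m)) ⟨k, Nat.lt_succ_of_le hk⟩ j := by
    intro j
    rw [← h]
    rfl
  rw [h1, der, Finset.sum_eq_single ⟨k, Nat.lt_succ_of_le hk⟩]
  · rw [h2, Matrix.one_apply_eq, map_one, one_mul]
  · intro j _ hj
    rw [h2, Matrix.one_apply_ne (Ne.symm hj), map_zero, zero_mul]
  · intro h
    exact absurd (Finset.mem_univ _) h

/-- The specialization `t_k = t` for `k ≠ c`, `t_c = q`. -/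
noncomputable def spec (c : ℕ) (q : ℝ) (hq : 0 < q) (k : ℕ) : ℝˣ :=
  if k = c then Units.mk0 q hq.ne' else Units.mk0 (tt q) (inv_pos.mpr (by positivity)).ne'

lemma dyn_of_gassner {m c : ℕ} {q : ℝ} (hq : 0 < q) (hc : c ≤ m) {w : List (ℕ × ℤ)}
    (hw : ∀ s ∈ w, s.1 < c) (h : gassner (word m c w) = 1) (y : ℕ → ℝ) {l : ℕ} (hl : l < c) :
    dyn (tt q) q c w y l = y l := by
  have e0 : tt q * q = 1 / 4 := tt_mul hq.ne'
  have ht : ∀ k < c, chi (ev m (spec c q hq)) (X m k) = tt q := by
    intro k hk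
    rw [chi_ev _ (by omega)]
    unfold spec
    rw [if_neg (by omega)]
    rfl
  have hqc : chi (ev m (spec c q hq)) (X m c) = q := by
    rw [chi_ev _ hc]
    unfold spec
    rw [if_pos rfl]
    rfl
  have h1 := der_word hc ht hqc (by rw [e0]; norm_num) (by rw [e0]; norm_num) w hw y (X m l)
  rw [der_of_gassner h _ (by omega), der_X _ _ (by omega), vec_lt hl, vec_lt hl] at h1
  have htt : tt q ≠ 0 := (inv_pos.mpr (by positivity) : 0 < tt q).ne'
  exact (mul_left_cancel₀ (pow_ne_zero _ htt) h1).symm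

lemma nb_of {c : ℕ} : ∀ (w : List (ℕ × ℤ)) (i j : ℕ) (e g : ℤ), i < c → j < c → i ≠ j →
    Reduced c ((i, e) :: w) → ¬ MinusPattern ((j, g) :: (i, e) :: w) →
    NB c i (if e = -1 then c - dst c j i else c - 1) w := by
  intro w
  induction w with
  | nil =>
    intro i j e g _ _ _ _ _
    trivial
  | cons x w ih =>
    obtain ⟨k, f⟩ := x
    intro i j e g hi hj hij hr hn
    have hk : k < c := (hr.1 (k, f) (by simp)).1
    have hf : f ≠ 0 := (hr.1 (k, f) (by simp)).2
    have hik : i ≠ k := by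
      have := hr.2
      rw [List.isChain_cons_cons] at this
      exact this.1
    have hr' : Reduced c ((k, f) :: w) := by
      refine ⟨fun s hs => hr.1 s (List.mem_cons_of_mem _ hs), ?_⟩
      have := hr.2
      rw [List.isChain_cons_cons] at this
      exact this.2
    refine ⟨hk, Ne.symm hik, hf, ?_, ih k i f e hk hi (Ne.symm hik) hr' ?_⟩
    · split_ifs with he
      · have hc : ¬ Cyc i j k := fun hc => hn ⟨[], w, i, j, k, g, f, by rw [he]; rfl, hc⟩
        unfold Cyc at hc
        unfold dst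
        split_ifs <;> omega
      · have := dst_lt hk hi (Ne.symm hik)
        omega
    · rintro ⟨u, v, i', j', k', e', f', h1, h2⟩
      exact hn ⟨(j, g) :: u, v, i', j', k', e', f', by rw [h1]; rfl, h2⟩

/-- The first part: a nonempty reduced word in the kernel contains the pattern with exponent
`-1`. -/
lemma minusPattern_of {m c : ℕ} (hc : c ≤ m) {w : List (ℕ × ℤ)} (hr : Reduced c w) (hw : w ≠ [])
    (h : gassner (word m c w) = 1) : MinusPattern w := by
  have hlt : ∀ s ∈ w, s.1 < c := fun s hs => (hr.1 s hs).1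
  by_contra hn
  obtain ⟨⟨i, e⟩, w1, rfl⟩ := List.exists_cons_of_ne_nil hw
  have hi : i < c := hlt (i, e) (by simp)
  have he : e ≠ 0 := (hr.1 (i, e) (by simp)).2
  cases w1 with
  | nil =>
    have h1 := dyn_of_gassner one_pos hc hlt h (unit i) hi
    have h2 : dyn (tt 1) 1 c [(i, e)] (unit i) i = (1 / 4 : ℝ) ^ e := by
      change stp (tt 1) 1 c i e (unit i) i = _
      unfold stp
      rw [Function.update_self, stp_eq one_ne_zero (by rw [tt_mul one_ne_zero]; norm_num),
        T_unit, T_unit, T_unit, tt_mul one_ne_zero, if_pos (by omega), if_neg (by omega),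
        if_pos hi]
      unfold unit
      rw [if_pos rfl]
      ring
    rw [h2] at h1
    have hk : kap e = 0 := by
      unfold kap ce
      rw [h1]
      unfold unit
      rw [if_pos rfl]
      norm_num
    by_cases h3 : e = -1
    · rw [h3, kap_neg_one] at hk
      norm_num at hk
    · rcases kap_other he h3 with h4 | h4 <;> linarith
  | cons x w2 =>
    obtain ⟨k, f⟩ := x
    have hk : k < c := hlt (k, f) (by simp)
    have hf : f ≠ 0 := (hr.1 (k, f) (by simp)).2
    have hik : i ≠ k := by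
      have := hr.2
      rw [List.isChain_cons_cons] at this
      exact this.1
    have hr' : Reduced c ((k, f) :: w2) := by
      refine ⟨fun s hs => hr.1 s (List.mem_cons_of_mem _ hs), ?_⟩
      have := hr.2
      rw [List.isChain_cons_cons] at this
      exact this.2
    have hNB : NB c k (c - 1) ((i, e) :: (k, f) :: w2) := by
      refine ⟨hi, hik, he, ?_, hk, Ne.symm hik, hf, ?_, nb_of w2 k i f e hk hi (Ne.symm hik) hr' hn⟩
      · have := dst_lt hi hk hik
        omega
      · split_ifs with h1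
        · unfold dst
          split_ifs <;> omega
        · have := dst_lt hk hi (Ne.symm hik)
          omega
    obtain ⟨q, hq, l, hl, hne⟩ := exists_ne hw hk hNB
    exact hne (dyn_of_gassner hq hc hlt h (unit k) hl)

/-! ### Pure braids in the kernel -/

/-- The braid preserves the classes of the generators. -/
def Pure {m : ℕ} (β : Braid m) : Prop :=
  ∀ u, chi (RingHom.id (Lam m)) (artin m β u) = chi (RingHom.id (Lam m)) u

/-- The braid preserves the Fox derivatives over the Laurent polynomials. -/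
def Ker {m : ℕ} (β : Braid m) : Prop :=
  ∀ (j : Fin (m + 1)) (u : F m), phi m (fox j (artin m β u)) = phi m (fox j u)

lemma isDer_fox {m : ℕ} (j : Fin (m + 1)) :
    IsDer (chi (RingHom.id (Lam m))) fun u => phi m (fox j u) := by
  intro u v
  simp only
  rw [fox_mul, map_add, map_mul]
  rfl

lemma artin_inv {m : ℕ} (β : Braid m) (u : F m) : artin m β (artin m β⁻¹ u) = u := by
  rw [← MulAut.mul_apply, ← map_mul, mul_inv_cancel, map_one]
  rfl

lemma Pure.one {m : ℕ} : Pure (1 : Braid m) := fun u => by rw [map_one]; rfl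

lemma Pure.mul {m : ℕ} {β γ : Braid m} (hβ : Pure β) (hγ : Pure γ) : Pure (β * γ) := fun u => by
  rw [map_mul, MulAut.mul_apply, hβ, hγ]

lemma Pure.inv {m : ℕ} {β : Braid m} (hβ : Pure β) : Pure β⁻¹ := fun u => by
  rw [← hβ, artin_inv]

lemma Pure.zpow {m : ℕ} {β : Braid m} (hβ : Pure β) (e : ℤ) : Pure (β ^ e) := by
  induction e using Int.induction_on with
  | zero => rw [zpow_zero]; exact Pure.one
  | succ e ih => rw [zpow_add_one]; exact ih.mul hβ
  | pred e ih => rw [zpow_sub_one]; exact ih.mul hβ.inv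

lemma pure_A {m i c : ℕ} (hi : i < c) (hc : c ≤ m) : Pure (A m i c) := fun u => chi_A hi hc _ u

lemma pure_word {m c : ℕ} (hc : c ≤ m) {w : List (ℕ × ℤ)} (hw : ∀ s ∈ w, s.1 < c) :
    Pure (word m c w) := by
  induction w with
  | nil => exact Pure.one
  | cons x w ih =>
    rw [word_cons]
    exact ((pure_A (hw x List.mem_cons_self) hc).zpow _).mul
      (ih fun s hs => hw s (List.mem_cons_of_mem _ hs))

lemma Ker.mul {m : ℕ} {β γ : Braid m} (hβ : Ker β) (hγ : Ker γ) : Ker (β * γ) := fun j u => by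
  rw [map_mul, MulAut.mul_apply, hβ, hγ]

lemma Ker.inv {m : ℕ} {β : Braid m} (hβ : Ker β) : Ker β⁻¹ := fun j u => by
  rw [← hβ, artin_inv]

lemma Ker.gassner {m : ℕ} {β : Braid m} (hβ : Ker β) : gassner β = 1 := by
  refine Matrix.ext fun i j => ?_
  change phi m (fox j (artin m β (of i))) = _
  rw [hβ, fox_of]
  by_cases h : i = j
  · rw [if_pos h, map_one, h, Matrix.one_apply_eq]
  · rw [if_neg h, map_zero, Matrix.one_apply_ne h]

lemma ker_of_gassner {m : ℕ} {β : Braid m} (hp : Pure β) (h : gassner β = 1) : Ker β := by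
  intro j u
  have h1 : IsDer (chi (RingHom.id (Lam m))) fun u => phi m (fox j (artin m β u)) :=
    (isDer_fox j).comp (f := (artin m β).toMonoidHom) hp
  refine der_ext h1 (isDer_fox j) (fun k hk => ?_) u
  have h2 : X m k = of ⟨k, Nat.lt_succ_of_le hk⟩ := dif_pos (Nat.lt_succ_of_le hk)
  rw [h2]
  change gassner β ⟨k, Nat.lt_succ_of_le hk⟩ j = _
  rw [h, fox_of]
  by_cases h3 : (⟨k, Nat.lt_succ_of_le hk⟩ : Fin (m + 1)) = j
  · rw [if_pos h3, map_one, h3, Matrix.one_apply_eq]
  · rw [if_neg h3, map_zero, Matrix.one_apply_ne h3]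

/-- The inverse word. -/
def winv (w : List (ℕ × ℤ)) : List (ℕ × ℤ) := (w.map fun s => (s.1, -s.2)).reverse

lemma word_append (m c : ℕ) (w w' : List (ℕ × ℤ)) :
    word m c (w ++ w') = word m c w * word m c w' := by
  unfold word
  rw [List.map_append, List.prod_append]

lemma word_winv (m c : ℕ) (w : List (ℕ × ℤ)) : word m c (winv w) = (word m c w)⁻¹ := by
  induction w with
  | nil =>
    change (1 : Braid m) = 1⁻¹
    rw [inv_one]
  | cons s w ih =>
    have h1 : winv (s :: w) = winv w ++ [(s.1, -s.2)] := by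
      unfold winv
      rw [List.map_cons, List.reverse_cons]
    have h2 : word m c [(s.1, -s.2)] = (A m s.1 c ^ s.2)⁻¹ := by
      unfold word
      rw [List.map_singleton, List.prod_singleton, zpow_neg]
    rw [h1, word_append, ih, h2, word_cons, mul_inv_rev]

lemma winv_winv (w : List (ℕ × ℤ)) : winv (winv w) = w := by
  unfold winv
  rw [List.map_reverse, List.reverse_reverse, List.map_map]
  conv_rhs => rw [← List.map_id w]
  congr 1
  funext s
  simp

lemma winv_append (w w' : List (ℕ × ℤ)) : winv (w ++ w') = winv w' ++ winv w := by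
  unfold winv
  rw [List.map_append, List.reverse_append]

lemma reduced_winv {c : ℕ} {w : List (ℕ × ℤ)} (h : Reduced c w) : Reduced c (winv w) := by
  refine ⟨fun s hs => ?_, ?_⟩
  · unfold winv at hs
    rw [List.mem_reverse, List.mem_map] at hs
    obtain ⟨s', hs', rfl⟩ := hs
    exact ⟨(h.1 s' hs').1, neg_ne_zero.mpr (h.1 s' hs').2⟩
  · unfold winv
    rw [List.isChain_reverse, List.isChain_map]
    exact h.2.imp fun a b hab => Ne.symm hab

lemma plusPattern_of {m c : ℕ} (hc : c ≤ m) {w : List (ℕ × ℤ)} (hr : Reduced c w) (hw : w ≠ [])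
    (h : gassner (word m c w) = 1) : PlusPattern w := by
  have hlt : ∀ s ∈ w, s.1 < c := fun s hs => (hr.1 s hs).1
  have h1 : gassner (word m c (winv w)) = 1 := by
    rw [word_winv]
    exact (ker_of_gassner (pure_word hc hlt) h).inv.gassner
  have hw' : winv w ≠ [] := by
    intro h2
    apply hw
    rw [← winv_winv w, h2]
    rfl
  obtain ⟨u, v, i, j, k, e, f, h2, h3⟩ := minusPattern_of hc (reduced_winv hr) hw' h1
  refine ⟨winv v, winv u, i, k, j, -f, -e, ?_, h3⟩
  rw [← winv_winv w, h2]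
  have h4 : u ++ (j, e) :: (i, -1) :: (k, f) :: v = u ++ ([(j, e), (i, -1), (k, f)] ++ v) := rfl
  rw [h4, winv_append, winv_append]
  have h5 : winv [(j, e), (i, -1), (k, f)] = [(k, -f), (i, 1), (j, -e)] := by
    simp [winv]
  rw [h5]
  simp

/-! ### Combed braids -/

/-- The endomorphism which kills the generator `x_c`. -/
def erase (m c : ℕ) : F m →* F m := FreeGroup.lift fun k => if (k : ℕ) = c then 1 else of k

lemma erase_X {m c : ℕ} {k : ℕ} (hk : k ≤ m) : erase m c (X m k) = if k = c then 1 else X m k := by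
  have h2 : X m k = of ⟨k, Nat.lt_succ_of_le hk⟩ := dif_pos (Nat.lt_succ_of_le hk)
  rw [h2, erase, lift_apply_of]

/-- The ring homomorphism `t_c ↦ 1`. -/
noncomputable def one_at (m : ℕ) (c : Fin (m + 1)) : Lam m →+* Lam m :=
  (AddMonoidAlgebra.lift ℤ (Lam m) (Fin (m + 1) → ℤ)
    ((AddMonoidAlgebra.of ℤ (Fin (m + 1) → ℤ)).comp
      { toFun := fun a => Multiplicative.ofAdd (Function.update (Multiplicative.toAdd a) c 0)
        map_one' := by
          apply Multiplicative.toAdd.injective
          funext k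
          by_cases h : k = c
          · subst h; simp
          · simp
        map_mul' := by
          intro a b
          apply Multiplicative.toAdd.injective
          funext k
          by_cases h : k = c
          · subst h; simp
          · simp [Function.update_of_ne h] })).toRingHom

lemma chi_id_X {m k : ℕ} (hk : k ≤ m) : chi (RingHom.id (Lam m)) (X m k) =
    AddMonoidAlgebra.of ℤ _ (Multiplicative.ofAdd (Pi.single ⟨k, Nat.lt_succ_of_le hk⟩ 1)) := by
  have h1 : X m k = of ⟨k, Nat.lt_succ_of_le hk⟩ := dif_pos (Nat.lt_succ_of_le hk)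
  have h3 : ab m (X m k) = Multiplicative.ofAdd (Pi.single ⟨k, Nat.lt_succ_of_le hk⟩ 1) := by
    rw [h1, ab, lift_apply_of]
  rw [← h3]
  change phi m (MonoidAlgebra.of ℤ (F m) (X m k)) = _
  unfold phi
  simp

lemma one_at_of {m : ℕ} (c : Fin (m + 1)) (a : Fin (m + 1) → ℤ) :
    one_at m c (AddMonoidAlgebra.of ℤ _ (Multiplicative.ofAdd a)) =
      AddMonoidAlgebra.of ℤ _ (Multiplicative.ofAdd (Function.update a c 0)) := by
  unfold one_at
  simp

lemma chi_one_at {m : ℕ} (c : Fin (m + 1)) (u : F m) :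
    one_at m c (chi (RingHom.id (Lam m)) u) = chi (RingHom.id (Lam m)) (erase m c u) := by
  have h : ((one_at m c : Lam m →+* Lam m) : Lam m →* Lam m).comp (chi (RingHom.id (Lam m))) =
      (chi (RingHom.id (Lam m))).comp (erase m c) := by
    apply hom_ext_X
    intro k hk
    change one_at m c (chi (RingHom.id (Lam m)) (X m k)) =
      chi (RingHom.id (Lam m)) (erase m c (X m k))
    rw [erase_X hk]
    by_cases h1 : k = c
    · rw [if_pos h1, map_one, chi_id_X hk, one_at_of]
      have h2 : (⟨k, Nat.lt_succ_of_le hk⟩ : Fin (m + 1)) = c := Fin.ext h1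
      rw [h2]
      have h3 : Function.update (Pi.single c 1 : Fin (m + 1) → ℤ) c 0 = 0 := by
        funext l
        by_cases h : l = c
        · subst h; simp
        · simp [h]
      rw [h3]
      exact map_one _
    · rw [if_neg h1, chi_id_X hk, one_at_of]
      have h2 : (⟨k, Nat.lt_succ_of_le hk⟩ : Fin (m + 1)) ≠ c := fun h => h1 (congrArg Fin.val h)
      have h3 : Function.update (Pi.single ⟨k, Nat.lt_succ_of_le hk⟩ 1 : Fin (m + 1) → ℤ) c 0 =
          Pi.single ⟨k, Nat.lt_succ_of_le hk⟩ 1 := by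
        rw [Function.update_eq_self_iff, Pi.single_eq_of_ne (Ne.symm h2)]
      rw [h3]
  exact DFunLike.congr_fun h u

lemma isDer_erase {m : ℕ} (c j : Fin (m + 1)) :
    IsDer ((chi (RingHom.id (Lam m))).comp (erase m c)) fun u => phi m (fox j (erase m c u)) := by
  intro u v
  simp only
  rw [map_mul, fox_mul, map_add, map_mul]
  rfl

lemma fox_erase_self {m : ℕ} (c : Fin (m + 1)) (u : F m) : phi m (fox c (erase m c u)) = 0 := by
  have h0 : IsDer ((chi (RingHom.id (Lam m))).comp (erase m c)) fun _ : F m => (0 : Lam m) := by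
    intro u v
    simp
  refine der_ext (isDer_erase c c) h0 (fun k hk => ?_) u
  rw [erase_X hk]
  by_cases h1 : k = c
  · rw [if_pos h1]
    have := fox_mul c (1 : F m) 1
    rw [mul_one, map_one, one_mul] at this
    rw [left_eq_add.mp this, map_zero]
  · have h2 : X m k = of ⟨k, Nat.lt_succ_of_le hk⟩ := dif_pos (Nat.lt_succ_of_le hk)
    rw [if_neg h1, h2, fox_of, if_neg (fun h => h1 (congrArg Fin.val h)), map_zero]

lemma fox_erase {m : ℕ} {c j : Fin (m + 1)} (hj : j ≠ c) (u : F m) :
    phi m (fox j (erase m c u)) = one_at m c (phi m (fox j u)) := by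
  have h0 : IsDer ((chi (RingHom.id (Lam m))).comp (erase m c))
      fun u : F m => one_at m c (phi m (fox j u)) := by
    intro u v
    simp only
    rw [fox_mul, map_add, map_mul, map_add, map_mul]
    change _ = _ + chi (RingHom.id (Lam m)) (erase m c u) * _
    rw [← chi_one_at]
    rfl
  refine der_ext (isDer_erase c j) h0 (fun k hk => ?_) u
  have h2 : X m k = of ⟨k, Nat.lt_succ_of_le hk⟩ := dif_pos (Nat.lt_succ_of_le hk)
  rw [erase_X hk]
  by_cases h1 : k = c
  · rw [if_pos h1]
    have := fox_mul j (1 : F m) 1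
    rw [mul_one, map_one, one_mul] at this
    rw [left_eq_add.mp this, map_zero, h2, fox_of, if_neg, map_zero, map_zero]
    intro h
    apply hj
    rw [← h]
    exact Fin.ext h1
  · rw [if_neg h1, h2, fox_of]
    split_ifs <;> simp

/-- The strand `c` does not move the derivatives `∂/∂x_j`, `j ≠ c`, at `t_c = 1`. -/
lemma fox_erase_A {m i : ℕ} {c j : Fin (m + 1)} (hi : i < c) (u : F m) :
    phi m (fox j (erase m c (artin m (A m i c) u))) = phi m (fox j (erase m c u)) := by
  have hc : (c : ℕ) ≤ m := Nat.lt_succ_iff.mp c.2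
  have hD := isDer_erase c j
  have h1 : IsDer ((chi (RingHom.id (Lam m))).comp (erase m c))
      fun u => phi m (fox j (erase m c (artin m (A m i c) u))) :=
    hD.comp (f := (artin m (A m i c)).toMonoidHom) fun u => chi_A hi hc _ u
  refine der_ext h1 hD (fun k hk => ?_) u
  have hXc : phi m (fox j (erase m c (X m c))) = 0 := by
    rw [erase_X hc, if_pos rfl]
    have := fox_mul j (1 : F m) 1
    rw [mul_one, map_one, one_mul] at this
    rw [left_eq_add.mp this, map_zero]
  have hχc : ((chi (RingHom.id (Lam m))).comp (erase m c)) (X m c) = 1 := by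
    rw [MonoidHom.comp_apply, erase_X hc, if_pos rfl, map_one]
  rw [artin_A_X c hi hc k]
  by_cases h2 : k = i
  · subst h2
    rw [if_pos rfl]
    have := hD.alg1 (X m k) (X m c) (U m k c)
    rw [this, hXc, hχc]
    ring
  · rw [if_neg h2]
    by_cases h3 : k = c
    · subst h3
      rw [if_pos rfl]
      have := hD.alg2 (X m i) (X m c) (U m i c)
      rw [this, hXc, hχc]
      ring
    · rw [if_neg h3]

/-- The braid `β` does not involve the strand `c`. -/
def Low {m : ℕ} (c : Fin (m + 1)) (β : Braid m) : Prop :=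
  (∀ u, erase m c (artin m β u) = artin m β (erase m c u)) ∧ artin m β (X m c) = X m c

lemma Low.one {m : ℕ} (c : Fin (m + 1)) : Low c (1 : Braid m) := by
  refine ⟨fun u => ?_, ?_⟩ <;> rw [map_one] <;> rfl

lemma Low.mul {m : ℕ} {c : Fin (m + 1)} {β γ : Braid m} (hβ : Low c β) (hγ : Low c γ) :
    Low c (β * γ) := by
  refine ⟨fun u => ?_, ?_⟩
  · rw [map_mul, MulAut.mul_apply, MulAut.mul_apply, hβ.1, hγ.1]
  · rw [map_mul, MulAut.mul_apply, hγ.2, hβ.2]

lemma Low.inv {m : ℕ} {c : Fin (m + 1)} {β : Braid m} (hβ : Low c β) : Low c β⁻¹ := by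
  have hinj : Function.Injective (artin m β) := (artin m β).injective
  refine ⟨fun u => hinj ?_, hinj ?_⟩
  · rw [← hβ.1, artin_inv, artin_inv]
  · rw [artin_inv, hβ.2]

lemma Low.zpow {m : ℕ} {c : Fin (m + 1)} {β : Braid m} (hβ : Low c β) (e : ℤ) :
    Low c (β ^ e) := by
  induction e using Int.induction_on with
  | zero => rw [zpow_zero]; exact Low.one c
  | succ e ih => rw [zpow_add_one]; exact ih.mul hβ
  | pred e ih => rw [zpow_sub_one]; exact ih.mul hβ.inv

lemma erase_U {m i : ℕ} {c : Fin (m + 1)} : ∀ l ≤ (c : ℕ), erase m c (U m i l) = U m i l := by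
  intro l
  induction l with
  | zero => intro _; rw [U, map_one]
  | succ l ih =>
    intro h
    have hc : (c : ℕ) ≤ m := Nat.lt_succ_iff.mp c.2
    rw [U]
    split_ifs with h1
    · rw [map_mul, ih (by omega), erase_X (by omega), if_neg (by omega)]
    · rw [map_one]

lemma low_A {m i l : ℕ} {c : Fin (m + 1)} (hi : i < l) (hl : l < c) : Low c (A m i l) := by
  have hc : (c : ℕ) ≤ m := Nat.lt_succ_iff.mp c.2
  have hlm : l ≤ m := by omega
  refine ⟨?_, ?_⟩
  · have h : (erase m c).comp (artin m (A m i l)).toMonoidHom =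
        (artin m (A m i l)).toMonoidHom.comp (erase m c) := by
      ext j
      change erase m c (artin m (A m i l) (of j)) = artin m (A m i l) (erase m c (of j))
      rw [← X_val]
      have hj : (j : ℕ) ≤ m := Nat.lt_succ_iff.mp j.2
      have hXi : erase m c (X m i) = X m i := by rw [erase_X (by omega), if_neg (by omega)]
      have hXl : erase m c (X m l) = X m l := by rw [erase_X hlm, if_neg (by omega)]
      have hU : erase m c (U m i l) = U m i l := erase_U l hl.le
      by_cases h1 : (j : ℕ) = c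
      · have e1 : artin m (A m i l) (X m j) = X m j := by
          rw [artin_A_X l hi hlm, if_neg (by omega), if_neg (by omega)]
        rw [e1, erase_X hj, if_pos h1, map_one]
      · rw [erase_X hj, if_neg h1, artin_A_X l hi hlm]
        split_ifs with h2 h3
        · simp only [map_mul, map_inv, hXi, hXl, hU]
        · simp only [map_mul, map_inv, hXi, hXl, hU]
        · rw [erase_X hj, if_neg h1]
    exact fun u => DFunLike.congr_fun h u
  · rw [artin_A_X l hi hlm, if_neg (by omega), if_neg (by omega)]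

lemma low_word {m l : ℕ} {c : Fin (m + 1)} (hl : l < c) {w : List (ℕ × ℤ)}
    (hw : ∀ s ∈ w, s.1 < l) : Low c (word m l w) := by
  induction w with
  | nil => exact Low.one c
  | cons x w ih =>
    rw [word_cons]
    exact ((low_A (hw x List.mem_cons_self) hl).zpow _).mul
      (ih fun s hs => hw s (List.mem_cons_of_mem _ hs))

lemma low_comb {m : ℕ} {c : Fin (m + 1)} {w : ℕ → List (ℕ × ℤ)}
    (hw : ∀ l ≤ m, ∀ s ∈ w l, s.1 < l) : ∀ b < (c : ℕ), Low c (comb m w b) := by
  intro b
  induction b with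
  | zero => intro _; exact Low.one c
  | succ b ih =>
    intro h
    have hc : (c : ℕ) ≤ m := Nat.lt_succ_iff.mp c.2
    exact (low_word h (hw _ (by omega))).mul (ih (by omega))

lemma pure_comb {m : ℕ} {w : ℕ → List (ℕ × ℤ)} (hw : ∀ l ≤ m, ∀ s ∈ w l, s.1 < l) :
    ∀ b ≤ m, Pure (comb m w b) := by
  intro b
  induction b with
  | zero => intro _; exact Pure.one
  | succ b ih => intro h; exact (pure_word h (hw _ h)).mul (ih (by omega))

lemma fox_erase_word {m : ℕ} {c j : Fin (m + 1)} (w : List (ℕ × ℤ))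
    (hw : ∀ s ∈ w, s.1 < c) (u : F m) :
    phi m (fox j (erase m c (artin m (word m c w) u))) = phi m (fox j (erase m c u)) := by
  have hz : ∀ i : ℕ, i < c → ∀ (e : ℤ) (u : F m),
      phi m (fox j (erase m c (artin m (A m i c ^ e) u))) = phi m (fox j (erase m c u)) := by
    intro i hi e
    induction e using Int.induction_on with
    | zero => intro u; rw [zpow_zero, map_one]; rfl
    | succ e ih =>
      intro u
      rw [zpow_add_one, map_mul, MulAut.mul_apply, ih, fox_erase_A hi]
    | pred e ih =>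
      intro u
      rw [zpow_sub_one, map_mul, MulAut.mul_apply, ih]
      have := fox_erase_A (j := j) hi (artin m (A m i c)⁻¹ u)
      rw [artin_inv] at this
      exact this.symm
  induction w with
  | nil =>
    have : word m c [] = 1 := rfl
    rw [this, map_one]
    rfl
  | cons x w ih =>
    rw [word_cons, map_mul, MulAut.mul_apply, hz x.1 (hw x List.mem_cons_self),
      ih fun s hs => hw s (List.mem_cons_of_mem _ hs)]

/-- Removal of the last strand of a combed braid in the kernel. -/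
lemma ker_step {m : ℕ} {c : Fin (m + 1)} {w : List (ℕ × ℤ)} (hw : ∀ s ∈ w, s.1 < c)
    {β : Braid m} (hβ : Low c β) (hp : Pure β) (h : Ker (word m c w * β)) : Ker β := by
  have key : ∀ (j : Fin (m + 1)) (k : ℕ), k ≤ m →
      phi m (fox j (artin m β (X m k))) = phi m (fox j (X m k)) := by
    intro j k hk
    by_cases hkc : k = c
    · rw [hkc, hβ.2]
    · have e1 : erase m c (X m k) = X m k := by rw [erase_X hk, if_neg hkc]
      have e2 : erase m c (artin m β (X m k)) = artin m β (X m k) := by rw [hβ.1, e1]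
      by_cases hj : j = c
      · subst hj
        rw [← e2, fox_erase_self, ← e1, fox_erase_self]
      · calc phi m (fox j (artin m β (X m k)))
            = phi m (fox j (erase m c (artin m β (X m k)))) := by rw [e2]
          _ = phi m (fox j (erase m c (artin m (word m c w) (artin m β (X m k))))) :=
              (fox_erase_word w hw _).symm
          _ = one_at m c (phi m (fox j (artin m (word m c w * β) (X m k)))) := by
              rw [fox_erase hj, map_mul (artin m), MulAut.mul_apply]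
          _ = phi m (fox j (erase m c (X m k))) := by rw [h j, fox_erase hj]
          _ = phi m (fox j (X m k)) := by rw [e1]
  intro j u
  have h1 : IsDer (chi (RingHom.id (Lam m))) fun u => phi m (fox j (artin m β u)) :=
    (isDer_fox j).comp (f := (artin m β).toMonoidHom) hp
  exact der_ext h1 (isDer_fox j) (fun k hk => key j k hk) u

lemma ker_comb {m : ℕ} {w : ℕ → List (ℕ × ℤ)} (hw : ∀ l ≤ m, ∀ s ∈ w l, s.1 < l) :
    ∀ b ≤ m, Ker (comb m w b) → ∀ c, 1 ≤ c → c ≤ b → Ker (word m c (w c)) := by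
  intro b
  induction b with
  | zero => intro _ _ c h1 h2; omega
  | succ b ih =>
    intro hb hK c h1 h2
    have hβ : Low (⟨b + 1, by omega⟩ : Fin (m + 1)) (comb m w b) :=
      low_comb hw b (Nat.lt_succ_self b)
    have hp : Pure (comb m w b) := pure_comb hw b (by omega)
    have hK' : Ker (comb m w b) :=
      ker_step (c := ⟨b + 1, by omega⟩) (w := w (b + 1)) (hw _ hb) hβ hp hK
    by_cases hc : c = b + 1
    · subst hc
      have := hK.mul hK'.inv
      have e1 : comb m w (b + 1) * (comb m w b)⁻¹ = word m (b + 1) (w (b + 1)) := by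
        change word m (b + 1) (w (b + 1)) * comb m w b * (comb m w b)⁻¹ = _
        rw [mul_inv_cancel_right]
      rwa [e1] at this
    · exact ih (by omega) hK' c h1 (by omega)

/-! ### Powers of the generators -/

/-- Reduced words with exponents divisible by `K i`. -/
def RedK (c : ℕ) (K : ℕ → ℕ) (w : List (ℕ × ℤ)) : Prop :=
  Reduced c w ∧ ∀ s ∈ w, (K s.1 : ℤ) ∣ s.2

lemma redK_mul {m c : ℕ} {K : ℕ → ℕ} {i : ℕ} (hi : i < c) {n : ℤ} (hn : (K i : ℤ) ∣ n)
    {w : List (ℕ × ℤ)} (hw : RedK c K w) :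
    ∃ w', RedK c K w' ∧ word m c w' = A m i c ^ n * word m c w := by
  by_cases h0 : n = 0
  · exact ⟨w, hw, by rw [h0, zpow_zero, one_mul]⟩
  cases w with
  | nil =>
    refine ⟨[(i, n)], ⟨⟨?_, List.isChain_singleton _⟩, ?_⟩, ?_⟩
    · intro s hs
      rw [List.mem_singleton] at hs
      subst hs
      exact ⟨hi, h0⟩
    · intro s hs
      rw [List.mem_singleton] at hs
      subst hs
      exact hn
    · rw [word_cons]
  | cons x v =>
    obtain ⟨j, e⟩ := x
    by_cases hij : i = j
    · subst hij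
      have hch : v.IsChain fun s s' => s.1 ≠ s'.1 := by
        have := hw.1.2
        rw [List.isChain_cons] at this
        exact this.2
      by_cases hne : n + e = 0
      · refine ⟨v, ⟨⟨fun s hs => hw.1.1 s (List.mem_cons_of_mem _ hs), hch⟩,
          fun s hs => hw.2 s (List.mem_cons_of_mem _ hs)⟩, ?_⟩
        rw [word_cons, ← mul_assoc, ← zpow_add, hne, zpow_zero, one_mul]
      · refine ⟨(i, n + e) :: v, ⟨⟨?_, ?_⟩, ?_⟩, ?_⟩
        · intro s hs
          rcases List.mem_cons.mp hs with rfl | hs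
          · exact ⟨hi, hne⟩
          · exact hw.1.1 s (List.mem_cons_of_mem _ hs)
        · have := hw.1.2
          rw [List.isChain_cons] at this ⊢
          exact this
        · intro s hs
          rcases List.mem_cons.mp hs with rfl | hs
          · exact dvd_add hn (hw.2 (i, e) List.mem_cons_self)
          · exact hw.2 s (List.mem_cons_of_mem _ hs)
        · rw [word_cons, word_cons, ← mul_assoc, ← zpow_add]
    · refine ⟨(i, n) :: (j, e) :: v, ⟨⟨?_, ?_⟩, ?_⟩, ?_⟩
      · intro s hs
        rcases List.mem_cons.mp hs with rfl | hs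
        · exact ⟨hi, h0⟩
        · exact hw.1.1 s hs
      · rw [List.isChain_cons_cons]
        exact ⟨hij, hw.1.2⟩
      · intro s hs
        rcases List.mem_cons.mp hs with rfl | hs
        · exact hn
        · exact hw.2 s hs
      · rw [word_cons]

lemma redK_of_mem {m c : ℕ} {K : ℕ → ℕ} {β : Braid m}
    (hβ : β ∈ Subgroup.closure {β : Braid m | ∃ i < c, β = A m i c ^ K i}) :
    ∃ w, RedK c K w ∧ β = word m c w := by
  induction hβ using Subgroup.closure_induction_left with
  | one => exact ⟨[], ⟨⟨fun s hs => absurd hs List.not_mem_nil, List.isChain_nil⟩,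
      fun s hs => absurd hs List.not_mem_nil⟩, rfl⟩
  | mul_left x hx y _ ih =>
    obtain ⟨i, hi, rfl⟩ := hx
    obtain ⟨w, hw, rfl⟩ := ih
    obtain ⟨w', hw', h⟩ := redK_mul (m := m) hi (dvd_refl (K i : ℤ)) hw
    exact ⟨w', hw', by rw [h, zpow_natCast]⟩
  | inv_mul_cancel x hx y _ ih =>
    obtain ⟨i, hi, rfl⟩ := hx
    obtain ⟨w, hw, rfl⟩ := ih
    obtain ⟨w', hw', h⟩ := redK_mul (m := m) hi ((dvd_refl (K i : ℤ)).neg_right) hw
    exact ⟨w', hw', by rw [h, zpow_neg, zpow_natCast]⟩


/-! ### Combing: every pure braid is a combed braid -/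

lemma perm_gen {m k : ℕ} (hk : k < m) (x : Fin (m + 1)) : ((perm m (gen m k) x : Fin (m + 1)) : ℕ) =
    if (x : ℕ) = k then k + 1 else if (x : ℕ) = k + 1 then k else x := by
  have h1 : perm m (gen m k) = Equiv.swap (⟨k, hk⟩ : Fin m).castSucc (⟨k, hk⟩ : Fin m).succ := by
    rw [gen, dif_pos hk]
    exact PresentedGroup.toGroup.of (rels := braidRels m)
      (f := fun i : Fin m => Equiv.swap i.castSucc i.succ) _
  rw [h1, swap_val]
  rfl

lemma gen_comm {m k k' : ℕ} (h : k + 1 < k') : gen m k * gen m k' = gen m k' * gen m k := by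
  by_cases h1 : k' < m
  · have h2 : k < m := by omega
    rw [gen, gen, dif_pos h1, dif_pos h2]
    have h3 := PresentedGroup.one_of_mem (rels := braidRels m)
      (x := of (⟨k, h2⟩ : Fin m) * of ⟨k', h1⟩ * (of ⟨k, h2⟩)⁻¹ * (of ⟨k', h1⟩)⁻¹)
      (Or.inl ⟨⟨k, h2⟩, ⟨k', h1⟩, h, rfl⟩)
    simp only [map_mul, map_inv] at h3
    rw [mul_inv_eq_one, mul_inv_eq_iff_eq_mul] at h3
    exact h3
  · have h2 : gen m k' = 1 := dif_neg h1
    rw [h2, mul_one, one_mul]

lemma gen_braid {m k : ℕ} (h : k + 1 < m) :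
    gen m k * gen m (k + 1) * gen m k = gen m (k + 1) * gen m k * gen m (k + 1) := by
  have h2 : k < m := by omega
  rw [gen, gen, dif_pos h, dif_pos h2]
  have h3 := PresentedGroup.one_of_mem (rels := braidRels m)
    (x := of (⟨k, h2⟩ : Fin m) * of ⟨k + 1, h⟩ * of ⟨k, h2⟩ * (of ⟨k + 1, h⟩)⁻¹ *
      (of ⟨k, h2⟩)⁻¹ * (of ⟨k + 1, h⟩)⁻¹)
    (Or.inr ⟨⟨k, h2⟩, ⟨k + 1, h⟩, rfl, rfl⟩)
  simp only [map_mul, map_inv] at h3
  rw [mul_inv_eq_one, mul_inv_eq_iff_eq_mul, mul_inv_eq_iff_eq_mul] at h3
  exact h3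

/-- The braid `σ_{c-1} ⋯ σ_j`. -/
def S (m j : ℕ) : ℕ → Braid m
  | 0 => 1
  | c + 1 => if j ≤ c then gen m c * S m j c else 1

lemma S_succ {m j c : ℕ} (h : j ≤ c) : S m j (c + 1) = gen m c * S m j c := if_pos h

lemma S_ge {m j : ℕ} : ∀ c ≤ j, S m j c = 1
  | 0, _ => rfl
  | _ + 1, h => if_neg (by omega)

lemma S_comm_low {m j k : ℕ} (h : k + 1 < j) : ∀ c, gen m k * S m j c = S m j c * gen m k := by
  intro c
  induction c with
  | zero => rw [S_ge 0 (Nat.zero_le j), mul_one, one_mul]
  | succ c ih =>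
    by_cases hc : j ≤ c
    · rw [S_succ hc, ← mul_assoc, gen_comm (by omega : k + 1 < c), mul_assoc, ih, mul_assoc]
    · rw [S_ge (c + 1) (by omega), mul_one, one_mul]

lemma S_comm_high {m j k : ℕ} : ∀ c, c < k → gen m k * S m j c = S m j c * gen m k := by
  intro c
  induction c with
  | zero => intro _; rw [S_ge 0 (Nat.zero_le j), mul_one, one_mul]
  | succ c ih =>
    intro h
    by_cases hc : j ≤ c
    · rw [S_succ hc, ← mul_assoc, ← gen_comm (by omega : c + 1 < k), mul_assoc, ih (by omega),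
        mul_assoc]
    · rw [S_ge (c + 1) (by omega), mul_one, one_mul]

lemma S_shift {m j k : ℕ} (hj : j ≤ k) : ∀ c ≤ m, k + 1 < c →
    gen m k * S m j c = S m j c * gen m (k + 1) := by
  intro c
  induction c with
  | zero => intro _ h; omega
  | succ c ih =>
    intro hc h
    by_cases h1 : k + 1 < c
    · rw [S_succ (by omega : j ≤ c), ← mul_assoc, gen_comm h1, mul_assoc, ih (by omega) h1,
        mul_assoc]
    · have h2 : c = k + 1 := by omega
      subst h2
      rw [S_succ (by omega : j ≤ k + 1), S_succ hj]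
      calc gen m k * (gen m (k + 1) * (gen m k * S m j k))
          = (gen m k * gen m (k + 1) * gen m k) * S m j k := by simp only [mul_assoc]
        _ = (gen m (k + 1) * gen m k * gen m (k + 1)) * S m j k := by rw [gen_braid (by omega)]
        _ = gen m (k + 1) * gen m k * (gen m (k + 1) * S m j k) := by simp only [mul_assoc]
        _ = gen m (k + 1) * gen m k * (S m j k * gen m (k + 1)) := by
            rw [S_comm_high k (Nat.lt_succ_self k)]
        _ = gen m (k + 1) * (gen m k * S m j k) * gen m (k + 1) := by simp only [mul_assoc]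

lemma S_right {m j : ℕ} : ∀ c, j < c → S m j c = S m (j + 1) c * gen m j := by
  intro c
  induction c with
  | zero => intro h; omega
  | succ c ih =>
    intro h
    rw [S_succ (by omega : j ≤ c)]
    by_cases h1 : j < c
    · rw [ih h1, S_succ (by omega : j + 1 ≤ c), mul_assoc]
    · have h2 : c = j := by omega
      subst h2
      rw [S_ge c le_rfl, S_ge (c + 1) le_rfl, mul_one, one_mul]

lemma A_eq {m i : ℕ} : ∀ c, i < c → A m i c = S m (i + 1) c * gen m i ^ 2 * (S m (i + 1) c)⁻¹ := by
  intro c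
  induction c with
  | zero => intro h; omega
  | succ c ih =>
    intro h
    by_cases h1 : i = c
    · subst h1
      rw [A, if_pos rfl, S_ge (i + 1) le_rfl]
      simp
    · rw [A, if_neg h1, ih (by omega), S_succ (by omega : i + 1 ≤ c)]
      group

lemma conj_A_far {m i c k : ℕ} (hc : c ≤ m) (hk : k + 1 < c) (hi : i < c) (h : i < k ∨ k + 1 < i) :
    gen m k * A m i c = A m i c * gen m k := by
  rw [A_eq c hi]
  rcases h with h | h
  · have h1 := S_shift (m := m) (j := i + 1) (k := k) h c hc hk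
    have h2 : gen m k = S m (i + 1) c * gen m (k + 1) * (S m (i + 1) c)⁻¹ := by
      rw [← h1, mul_inv_cancel_right]
    have h3 := gen_comm (m := m) (k := i) (k' := k + 1) (by omega)
    have h4 : gen m (k + 1) * gen m i ^ 2 = gen m i ^ 2 * gen m (k + 1) := by
      rw [pow_two, ← mul_assoc, ← h3, mul_assoc, ← h3, mul_assoc]
    calc gen m k * (S m (i + 1) c * gen m i ^ 2 * (S m (i + 1) c)⁻¹)
        = (gen m k * S m (i + 1) c) * gen m i ^ 2 * (S m (i + 1) c)⁻¹ := by
          simp only [mul_assoc]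
      _ = S m (i + 1) c * (gen m (k + 1) * gen m i ^ 2) * (S m (i + 1) c)⁻¹ := by
          rw [h1]; simp only [mul_assoc]
      _ = S m (i + 1) c * gen m i ^ 2 * (S m (i + 1) c)⁻¹ *
          (S m (i + 1) c * gen m (k + 1) * (S m (i + 1) c)⁻¹) := by rw [h4]; group
      _ = _ := by rw [← h2]
  · have h1 := S_comm_low (m := m) (j := i + 1) (k := k) (by omega) c
    have h3 := gen_comm (m := m) (k := k) (k' := i) h
    have h4 : gen m k * gen m i ^ 2 = gen m i ^ 2 * gen m k := by
      rw [pow_two, ← mul_assoc, h3, mul_assoc, h3, mul_assoc]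
    have h5 : gen m k * (S m (i + 1) c)⁻¹ = (S m (i + 1) c)⁻¹ * gen m k := by
      rw [mul_inv_eq_iff_eq_mul, mul_assoc, h1, inv_mul_cancel_left]
    calc gen m k * (S m (i + 1) c * gen m i ^ 2 * (S m (i + 1) c)⁻¹)
        = (gen m k * S m (i + 1) c) * gen m i ^ 2 * (S m (i + 1) c)⁻¹ := by
          simp only [mul_assoc]
      _ = S m (i + 1) c * (gen m k * gen m i ^ 2) * (S m (i + 1) c)⁻¹ := by
          rw [h1]; simp only [mul_assoc]
      _ = S m (i + 1) c * gen m i ^ 2 * (gen m k * (S m (i + 1) c)⁻¹) := by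
          rw [h4]; simp only [mul_assoc]
      _ = _ := by rw [h5]; simp only [mul_assoc]

lemma conj_A_self {m i c : ℕ} (hc : c ≤ m) (hi : i + 1 < c) :
    gen m i * A m i c = A m (i + 1) c * gen m i := by
  rw [A_eq c (by omega), A_eq c hi, S_right c hi]
  have h1 := S_comm_low (m := m) (j := i + 2) (k := i) (by omega) c
  have hb := gen_braid (m := m) (k := i) (by omega)
  set s := S m (i + 1 + 1) c
  set a := gen m i
  set b := gen m (i + 1)
  have h1' : a * s = s * a := h1
  have h2 : a * s⁻¹ = s⁻¹ * a := by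
    rw [mul_inv_eq_iff_eq_mul, mul_assoc, h1', inv_mul_cancel_left]
  have hb' : a * b * a ^ 2 = b ^ 2 * a * b := by
    calc a * b * a ^ 2 = (a * b * a) * a := by rw [pow_two]; simp only [mul_assoc]
      _ = (b * a * b) * a := by rw [hb]
      _ = b * (a * b * a) := by simp only [mul_assoc]
      _ = b * (b * a * b) := by rw [hb]
      _ = b ^ 2 * a * b := by rw [pow_two]; simp only [mul_assoc]
  calc a * (s * b * a ^ 2 * (s * b)⁻¹)
      = (a * s) * b * a ^ 2 * b⁻¹ * s⁻¹ := by group
    _ = s * (a * b * a ^ 2) * b⁻¹ * s⁻¹ := by rw [h1']; group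
    _ = s * b ^ 2 * (a * s⁻¹) := by rw [hb']; group
    _ = s * b ^ 2 * s⁻¹ * a := by rw [h2]; simp only [mul_assoc]

lemma conj_A_next {m i c : ℕ} (hc : c ≤ m) (hi : i + 1 < c) :
    gen m i * A m (i + 1) c * (gen m i)⁻¹ = (A m (i + 1) c)⁻¹ * A m i c * A m (i + 1) c := by
  rw [A_eq c (by omega : i < c), A_eq c hi, S_right c hi]
  have h1 := S_comm_low (m := m) (j := i + 2) (k := i) (by omega) c
  have hb := gen_braid (m := m) (k := i) (by omega)
  set s := S m (i + 1 + 1) c
  set a := gen m i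
  set b := gen m (i + 1)
  have h1' : a * s = s * a := h1
  have h2 : s⁻¹ * a⁻¹ = a⁻¹ * s⁻¹ := by
    rw [← mul_inv_rev, ← mul_inv_rev, h1']
  have hb' : a * b ^ 2 * a⁻¹ = b⁻¹ * a ^ 2 * b := by
    rw [mul_inv_eq_iff_eq_mul]
    have : b * (a * b ^ 2) = b * (b⁻¹ * a ^ 2 * b * a) := by
      calc b * (a * b ^ 2) = (b * a * b) * b := by rw [pow_two]; simp only [mul_assoc]
        _ = (a * b * a) * b := by rw [hb]
        _ = a * (b * a * b) := by simp only [mul_assoc]
        _ = a * (a * b * a) := by rw [hb]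
        _ = b * (b⁻¹ * a ^ 2 * b * a) := by rw [pow_two]; group
    exact mul_left_cancel this
  calc a * (s * b ^ 2 * s⁻¹) * a⁻¹
      = (a * s) * b ^ 2 * (s⁻¹ * a⁻¹) := by group
    _ = s * (a * b ^ 2 * a⁻¹) * s⁻¹ := by rw [h1', h2]; group
    _ = (s * b ^ 2 * s⁻¹)⁻¹ * (s * b * a ^ 2 * (s * b)⁻¹) * (s * b ^ 2 * s⁻¹) := by
        rw [hb', pow_two b]; group

/-- The subgroup generated by `σ_0, …, σ_{l-1}`. -/
def BB (m l : ℕ) : Subgroup (Braid m) := Subgroup.closure {β | ∃ k < l, β = gen m k}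

/-- The subgroup generated by `A_{0c}, …, A_{c-1,c}`. -/
def UU (m c : ℕ) : Subgroup (Braid m) := Subgroup.closure {β | ∃ i < c, β = A m i c}

lemma A_mem {m i c : ℕ} (hi : i < c) : A m i c ∈ UU m c := Subgroup.subset_closure ⟨i, hi, rfl⟩

lemma conj_gen {m c k : ℕ} (hc : c ≤ m) (hk : k + 1 < c) {u : Braid m} (hu : u ∈ UU m c) :
    gen m k * u * (gen m k)⁻¹ ∈ UU m c ∧ (gen m k)⁻¹ * u * gen m k ∈ UU m c := by
  constructor
  · have h : UU m c ≤ (UU m c).comap (MulAut.conj (gen m k)).toMonoidHom := by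
      rw [UU, Subgroup.closure_le]
      rintro _ ⟨i, hi, rfl⟩
      change gen m k * A m i c * (gen m k)⁻¹ ∈ UU m c
      rcases lt_trichotomy i k with h | h | h
      · rw [conj_A_far hc hk hi (Or.inl h), mul_inv_cancel_right]
        exact A_mem hi
      · subst h
        rw [conj_A_self hc hk, mul_inv_cancel_right]
        exact A_mem hk
      · by_cases h1 : i = k + 1
        · subst h1
          rw [conj_A_next hc hi]
          exact mul_mem (mul_mem (inv_mem (A_mem hi)) (A_mem (by omega))) (A_mem hi)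
        · rw [conj_A_far hc hk hi (Or.inr (by omega)), mul_inv_cancel_right]
          exact A_mem hi
    exact h hu
  · have h : UU m c ≤ (UU m c).comap (MulAut.conj (gen m k)⁻¹).toMonoidHom := by
      rw [UU, Subgroup.closure_le]
      rintro _ ⟨i, hi, rfl⟩
      change (gen m k)⁻¹ * A m i c * ((gen m k)⁻¹)⁻¹ ∈ UU m c
      rw [inv_inv, mul_assoc]
      rcases lt_trichotomy i k with h | h | h
      · rw [← conj_A_far hc hk hi (Or.inl h), inv_mul_cancel_left]
        exact A_mem hi
      · subst h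
        have h1 := conj_A_next hc hk
        have h2 := conj_A_self hc hk
        have h3 : (gen m i)⁻¹ * (A m i c * gen m i) = A m i c * A m (i + 1) c * (A m i c)⁻¹ := by
          rw [inv_mul_eq_iff_eq_mul]
          have h4 : gen m i * A m i c * (A m (i + 1) c * (A m i c)⁻¹) =
              A m (i + 1) c * (gen m i * A m (i + 1) c * (gen m i)⁻¹) *
                (gen m i * (A m i c)⁻¹) := by
            rw [h2]; group
          have h5 : gen m i * (A m i c)⁻¹ = (A m (i + 1) c)⁻¹ * gen m i := by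
            rw [mul_inv_eq_iff_eq_mul, mul_assoc, h2, inv_mul_cancel_left]
          calc A m i c * gen m i
              = A m (i + 1) c * ((A m (i + 1) c)⁻¹ * A m i c * A m (i + 1) c) *
                ((A m (i + 1) c)⁻¹ * gen m i) := by group
            _ = A m (i + 1) c * (gen m i * A m (i + 1) c * (gen m i)⁻¹) *
                (gen m i * (A m i c)⁻¹) := by rw [h5, h1]
            _ = gen m i * A m i c * (A m (i + 1) c * (A m i c)⁻¹) := h4.symm
            _ = gen m i * (A m i c * A m (i + 1) c * (A m i c)⁻¹) := by group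
        rw [h3]
        exact mul_mem (mul_mem (A_mem hi) (A_mem hk)) (inv_mem (A_mem hi))
      · by_cases h1 : i = k + 1
        · subst h1
          rw [← conj_A_self hc hi, inv_mul_cancel_left]
          exact A_mem (by omega)
        · rw [← conj_A_far hc hk hi (Or.inr (by omega)), inv_mul_cancel_left]
          exact A_mem hi
    have h1 := h hu
    change (gen m k)⁻¹ * u * ((gen m k)⁻¹)⁻¹ ∈ UU m c at h1
    rwa [inv_inv] at h1

lemma conj_mem {m l : ℕ} (hl : l + 1 ≤ m) {b : Braid m} (hb : b ∈ BB m l) :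
    ∀ u ∈ UU m (l + 1), b * u * b⁻¹ ∈ UU m (l + 1) ∧ b⁻¹ * u * b ∈ UU m (l + 1) := by
  induction hb using Subgroup.closure_induction with
  | mem x hx =>
    obtain ⟨k, hk, rfl⟩ := hx
    intro u hu
    exact conj_gen hl (by omega) hu
  | one => intro u hu; simpa using hu
  | mul x y _ _ hx hy =>
    intro u hu
    refine ⟨?_, ?_⟩
    · have := (hx _ (hy u hu).1).1
      rwa [show x * (y * u * y⁻¹) * x⁻¹ = x * y * u * (x * y)⁻¹ by group] at this
    · have := (hy _ (hx u hu).2).2
      rwa [show y⁻¹ * (x⁻¹ * u * x) * y = (x * y)⁻¹ * u * (x * y) by group] at this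
  | inv x _ hx =>
    intro u hu
    rw [inv_inv]
    exact ⟨(hx u hu).2, (hx u hu).1⟩

/-- The coset decomposition. -/
def Dec (m l : ℕ) (β : Braid m) : Prop :=
  ∃ u ∈ UU m (l + 1), ∃ b ∈ BB m l, ∃ j ≤ l + 1, β = u * b * S m j (l + 1)

lemma gen_mem {m l k : ℕ} (hk : k < l) : gen m k ∈ BB m l := Subgroup.subset_closure ⟨k, hk, rfl⟩

/-- One step: `S_j σ_k = u g S_{j'}` with `u ∈ U` and `g ∈ B`. -/
lemma step_gen {m l : ℕ} (hl : l + 1 ≤ m) {j k : ℕ} (hj : j ≤ l + 1) (hk : k < l + 1) :
    (∃ u ∈ UU m (l + 1), ∃ g ∈ BB m l, ∃ j' ≤ l + 1,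
      S m j (l + 1) * gen m k = u * g * S m j' (l + 1)) ∧
    (∃ u ∈ UU m (l + 1), ∃ g ∈ BB m l, ∃ j' ≤ l + 1,
      S m j (l + 1) * (gen m k)⁻¹ = u * g * S m j' (l + 1)) := by
  have hAk : A m k (l + 1) * S m (k + 1) (l + 1) = S m k (l + 1) * gen m k := by
    rw [A_eq (l + 1) hk, S_right (l + 1) hk, inv_mul_cancel_right, pow_two, mul_assoc]
  rcases lt_trichotomy j k with h | h | h
  · -- `j < k`: pass to the left with shift
    obtain ⟨k', rfl⟩ : ∃ k', k = k' + 1 := ⟨k - 1, by omega⟩
    have h1 := S_shift (m := m) (j := j) (k := k') (by omega) (l + 1) hl hk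
    refine ⟨⟨1, one_mem _, gen m k', gen_mem (by omega), j, hj, ?_⟩,
      ⟨1, one_mem _, (gen m k')⁻¹, inv_mem (gen_mem (by omega)), j, hj, ?_⟩⟩
    · rw [one_mul, h1]
    · rw [one_mul, mul_inv_eq_iff_eq_mul, mul_assoc, ← h1, inv_mul_cancel_left]
  · -- `j = k`
    subst h
    refine ⟨⟨A m j (l + 1), A_mem hk, 1, one_mem _, j + 1, hk, ?_⟩,
      ⟨1, one_mem _, 1, one_mem _, j + 1, hk, ?_⟩⟩
    · rw [mul_one, hAk]
    · rw [one_mul, one_mul, mul_inv_eq_iff_eq_mul, S_right (l + 1) hk]
  · by_cases h1 : j = k + 1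
    · subst h1
      refine ⟨⟨1, one_mem _, 1, one_mem _, k, by omega, ?_⟩,
        ⟨(A m k (l + 1))⁻¹, inv_mem (A_mem hk), 1, one_mem _, k, by omega, ?_⟩⟩
      · rw [one_mul, one_mul, S_right (l + 1) hk]
      · rw [mul_one, mul_inv_eq_iff_eq_mul, mul_assoc, ← hAk, inv_mul_cancel_left]
    · have h2 := S_comm_low (m := m) (j := j) (k := k) (by omega) (l + 1)
      refine ⟨⟨1, one_mem _, gen m k, gen_mem (by omega), j, hj, ?_⟩,
        ⟨1, one_mem _, (gen m k)⁻¹, inv_mem (gen_mem (by omega)), j, hj, ?_⟩⟩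
      · rw [one_mul, h2]
      · rw [one_mul, mul_inv_eq_iff_eq_mul, mul_assoc, ← h2, inv_mul_cancel_left]

lemma dec_mul {m l : ℕ} (hl : l + 1 ≤ m) {β γ : Braid m} (hβ : Dec m l β)
    (h : ∀ j ≤ l + 1, ∃ u ∈ UU m (l + 1), ∃ g ∈ BB m l, ∃ j' ≤ l + 1,
      S m j (l + 1) * γ = u * g * S m j' (l + 1)) : Dec m l (β * γ) := by
  obtain ⟨u, hu, b, hb, j, hj, rfl⟩ := hβ
  obtain ⟨u', hu', g, hg, j', hj', h'⟩ := h j hj
  refine ⟨u * (b * u' * b⁻¹), mul_mem hu (conj_mem hl hb u' hu').1, b * g, mul_mem hb hg, j', hj',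
    ?_⟩
  rw [mul_assoc, h']
  group

lemma dec_of_mem {m l : ℕ} (hl : l + 1 ≤ m) {β : Braid m} (hβ : β ∈ BB m (l + 1)) : Dec m l β := by
  induction hβ using Subgroup.closure_induction_right with
  | one => exact ⟨1, one_mem _, 1, one_mem _, l + 1, le_rfl, by rw [S_ge (l + 1) le_rfl]; simp⟩
  | mul_right x _ y hy ih =>
    obtain ⟨k, hk, rfl⟩ := hy
    exact dec_mul hl ih fun j hj => (step_gen hl hj hk).1
  | mul_inv_cancel x _ y hy ih =>
    obtain ⟨k, hk, rfl⟩ := hy
    exact dec_mul hl ih fun j hj => (step_gen hl hj hk).2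

lemma perm_A {m i : ℕ} : ∀ c ≤ m, perm m (A m i c) = 1 := by
  intro c
  induction c with
  | zero => intro _; exact map_one _
  | succ c ih =>
    intro hc
    by_cases h1 : i = c
    · subst h1
      rw [A, if_pos rfl, map_pow, pow_two]
      refine Equiv.ext fun x => Fin.ext ?_
      rw [Equiv.Perm.mul_apply, perm_gen (by omega), perm_gen (by omega), Equiv.Perm.one_apply]
      split_ifs <;> omega
    · rw [A, if_neg h1, map_mul, map_mul, ih (by omega), mul_one, map_inv, mul_inv_cancel]

lemma perm_UU {m c : ℕ} (hc : c ≤ m) {u : Braid m} (hu : u ∈ UU m c) : perm m u = 1 := by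
  have : UU m c ≤ (perm m).ker := by
    rw [UU, Subgroup.closure_le]
    rintro _ ⟨i, _, rfl⟩
    exact perm_A c hc
  exact this hu

lemma perm_BB {m l : ℕ} (hl : l + 1 ≤ m) {b : Braid m} (hb : b ∈ BB m l) :
    perm m b ⟨l + 1, by omega⟩ = ⟨l + 1, by omega⟩ := by
  induction hb using Subgroup.closure_induction with
  | mem x hx =>
    obtain ⟨k, hk, rfl⟩ := hx
    refine Fin.ext ?_
    rw [perm_gen (by omega), if_neg (by simp; omega), if_neg (by simp; omega)]
  | one => rw [map_one]; rfl
  | mul x y _ _ hx hy => rw [map_mul, Equiv.Perm.mul_apply, hy, hx]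
  | inv x _ hx => rw [map_inv, Equiv.Perm.inv_eq_iff_eq, hx]

lemma perm_S {m j : ℕ} (hj : j ≤ m) : ∀ c ≤ m, j ≤ c →
    ((perm m (S m j c) ⟨j, by omega⟩ : Fin (m + 1)) : ℕ) = c := by
  intro c
  induction c with
  | zero => intro _ h; rw [S_ge 0 (Nat.zero_le j), map_one]; exact Nat.le_zero.mp h
  | succ c ih =>
    intro hc h
    by_cases h1 : j ≤ c
    · rw [S_succ h1, map_mul, Equiv.Perm.mul_apply, perm_gen (by omega), ih (by omega) h1,
        if_pos rfl]
    · rw [S_ge (c + 1) (by omega), map_one]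
      change j = c + 1
      omega

lemma comb_congr {m : ℕ} {w w' : ℕ → List (ℕ × ℤ)} : ∀ l, (∀ c ≤ l, w c = w' c) →
    comb m w l = comb m w' l := by
  intro l
  induction l with
  | zero => intro _; rfl
  | succ l ih =>
    intro h
    rw [comb, comb, ih fun c hc => h c (by omega), h (l + 1) le_rfl]

lemma reduced_nil (c : ℕ) : Reduced c [] :=
  ⟨fun _ hs => absurd hs List.not_mem_nil, List.isChain_nil⟩

lemma word_of_mem {m c : ℕ} {u : Braid m} (hu : u ∈ UU m c) : ∃ v, Reduced c v ∧ word m c v = u := by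
  have h1 : u ∈ Subgroup.closure {β : Braid m | ∃ i < c, β = A m i c ^ (fun _ => 1 : ℕ → ℕ) i} := by
    have h2 : {β : Braid m | ∃ i < c, β = A m i c ^ (fun _ => 1 : ℕ → ℕ) i} =
        {β | ∃ i < c, β = A m i c} := by
      simp only [pow_one]
    rw [h2]
    exact hu
  obtain ⟨v, hv, h⟩ := redK_of_mem h1
  exact ⟨v, hv.1, h.symm⟩

/-- Artin's combing. -/
lemma combing {m : ℕ} : ∀ l ≤ m, ∀ β ∈ BB m l, perm m β = 1 →
    ∃ w : ℕ → List (ℕ × ℤ), (∀ c, Reduced c (w c)) ∧ comb m w l = β := by
  intro l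
  induction l with
  | zero =>
    intro _ β hβ _
    refine ⟨fun _ => [], fun c => reduced_nil c, ?_⟩
    have h : BB m 0 ≤ ⊥ := by
      rw [BB, Subgroup.closure_le]
      rintro _ ⟨k, hk, rfl⟩
      exact absurd hk (Nat.not_lt_zero k)
    have := h hβ
    rw [Subgroup.mem_bot] at this
    rw [this]
    rfl
  | succ l ih =>
    intro hl β hβ hp
    obtain ⟨u, hu, b, hb, j, hj, h⟩ := dec_of_mem hl hβ
    have hjl : j = l + 1 := by
      have h1 : perm m β ⟨j, by omega⟩ = ⟨j, by omega⟩ := by rw [hp]; rfl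
      rw [h, map_mul, map_mul, perm_UU hl hu, one_mul, Equiv.Perm.mul_apply] at h1
      have h2 : perm m (S m j (l + 1)) ⟨j, by omega⟩ = ⟨l + 1, by omega⟩ :=
        Fin.ext (perm_S (by omega) (l + 1) hl hj)
      rw [h2, perm_BB hl hb] at h1
      exact (congrArg Fin.val h1).symm
    subst hjl
    rw [S_ge (l + 1) le_rfl, mul_one] at h
    have hpb : perm m b = 1 := by
      rw [h, map_mul, perm_UU hl hu, one_mul] at hp
      exact hp
    obtain ⟨w, hw, hwb⟩ := ih (by omega) b hb hpb
    obtain ⟨v, hv, hvu⟩ := word_of_mem hu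
    refine ⟨Function.update w (l + 1) v, fun c => ?_, ?_⟩
    · by_cases hc : c = l + 1
      · subst hc
        rw [Function.update_self]
        exact hv
      · rw [Function.update_of_ne hc]
        exact hw c
    · rw [comb, Function.update_self, hvu, h, ← hwb]
      congr 1
      exact comb_congr l fun c hc => Function.update_of_ne (by omega) _ _

lemma mem_BB {m : ℕ} (β : Braid m) : β ∈ BB m m := by
  have h : Subgroup.closure (Set.range (PresentedGroup.of : Fin m → Braid m)) ≤ BB m m := by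
    rw [Subgroup.closure_le]
    rintro _ ⟨i, rfl⟩
    refine Subgroup.subset_closure ⟨i, i.2, ?_⟩
    rw [gen, dif_pos i.2]
  rw [PresentedGroup.closure_range_of] at h
  exact h (Subgroup.mem_top β)

/-- **The main theorem.** -/
theorem main (m : ℕ) (β : Braid m) (hβ : perm m β = 1) (h : gassner β = 1) :
    (∃ w, IsCombed m β w) ∧ ∀ w, IsCombed m β w → ∀ c ≤ m,
      gassner (word m c (w c)) = 1 ∧ (w c ≠ [] → MinusPattern (w c) ∧ PlusPattern (w c)) := by
  refine ⟨?_, fun w hw c hc => ?_⟩
  · obtain ⟨w, hw, hwb⟩ := combing m le_rfl β (mem_BB β) hβ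
    exact ⟨w, fun c _ => hw c, hwb⟩
  obtain ⟨hw, hcomb⟩ := hw
  subst hcomb
  have hlt : ∀ l ≤ m, ∀ s ∈ w l, s.1 < l := fun l hl s hs => ((hw l hl).1 s hs).1
  have hK : Ker (comb m w m) := ker_of_gassner (pure_comb hlt m le_rfl) h
  have h1 : gassner (word m c (w c)) = 1 := by
    rcases Nat.eq_zero_or_pos c with h0 | h0
    · subst h0
      have h2 : w 0 = [] := by
        rcases hw0 : w 0 with _ | ⟨s, v⟩
        · rfl
        · exact absurd (hlt 0 hc s (by rw [hw0]; exact List.mem_cons_self)) (Nat.not_lt_zero _)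
      rw [h2]
      have h3 : Ker (word m 0 []) := fun j u => by
        have : word m 0 [] = 1 := rfl
        rw [this, map_one]
        rfl
      exact h3.gassner
    · exact (ker_comb hlt m le_rfl hK c h0 hc).gassner
  exact ⟨h1, fun hne => ⟨minusPattern_of hc (hw c hc) hne h1,
    plusPattern_of hc (hw c hc) hne h1⟩⟩

end MP5b6326
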